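import Mathlib

set_option autoImplicit false

/-!
# The Weyl–Heisenberg displacement operators and the stabilizer Rényi entropies

A vector of `ℂ^d` is a function `ψ : ZMod d → ℂ`, `ψ j` being the coefficient of `|j⟩`.
-/

namespace Pool.Agent.H239.WH

/-- `ω = e^{2πi/d}` -/
noncomputable def omega (d : ℕ) : ℂ := Complex.exp (2 * Real.pi * Complex.I / d)

/-- The clock operator: `Z|j⟩ = ω^j|j⟩`, so `(Zψ)_j = ω^j ψ_j`. -/
noncomputable def clock {d : ℕ} (ψ : ZMod d → ℂ) : ZMod d → ℂ := fun j => omega d ^ j.val * ψ j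

/-- The shift operator: `X|j⟩ = |j+1⟩`, so `(Xψ)_j = ψ_{j-1}`. -/
def shift {d : ℕ} (ψ : ZMod d → ℂ) : ZMod d → ℂ := fun j => ψ (j - 1)

/-- The displacement operator `D_{a,b} = X^a Z^b` applied to `ψ`. -/
noncomputable def disp {d : ℕ} (a b : ZMod d) (ψ : ZMod d → ℂ) : ZMod d → ℂ :=
  shift^[a.val] (clock^[b.val] ψ)

/-- The inner product `⟨φ|ψ⟩`, conjugate-linear in `φ`. -/
noncomputable def braket {d : ℕ} [NeZero d] (φ ψ : ZMod d → ℂ) : ℂ :=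
  ∑ j, (starRingEnd ℂ) (φ j) * ψ j

/-- The stabilizer Rényi entropy
`M_α(ψ) = (1/(1-α)) log ∑_{(a,b)} (1/d) |⟨ψ|D_{a,b}|ψ⟩|^{2α}`. -/
noncomputable def stabEntropy {d : ℕ} [NeZero d] (α : ℕ) (ψ : ZMod d → ℂ) : ℝ :=
  1 / (1 - (α : ℝ)) * Real.log (∑ a, ∑ b, 1 / (d : ℝ) * ‖braket ψ (disp a b ψ)‖ ^ (2 * α))

/-- The upper bound `(1/(1-α)) log ((1 + (d-1)(d+1)^{1-α})/d)` for `M_α`, with `α = k + 1` and
`(d+1)^{1-α} = 1/(d+1)^{α-1}`. -/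
noncomputable def maxEntropy (d α : ℕ) : ℝ :=
  1 / (1 - (α : ℝ)) * Real.log ((1 + ((d : ℝ) - 1) / ((d : ℝ) + 1) ^ (α - 1)) / d)

end Pool.Agent.H239.WH
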