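import Mathlib

set_option autoImplicit false
set_option linter.unusedSectionVars false

/-!
# Quadratic exponential sums modulo a prime with smooth weights
-/

namespace Pool.Agent.H239.WH

open Finset

section
variable {p : ℕ} [NeZero p]

/-- the standard additive character modulo `p` -/
noncomputable abbrev ch (x : ZMod p) : ℂ := ZMod.stdAddChar x

theorem norm_ch (x : ZMod p) : ‖ch x‖ = 1 := AddChar.norm_apply _ x

theorem conj_ch (x : ZMod p) : (starRingEnd ℂ) (ch x) = ch (-x) :=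
  (AddChar.map_neg_eq_conj _ x).symm

theorem ch_add (x y : ZMod p) : ch (x + y) = ch x * ch y := AddChar.map_add_eq_mul _ x y

theorem ch_zero : ch (0 : ZMod p) = 1 := AddChar.map_zero_eq_one _

theorem sum_ch (b : ZMod p) : ∑ x : ZMod p, ch (x * b) = if b = 0 then (p : ℂ) else 0 := by
  have h := AddChar.sum_mulShift b (ZMod.isPrimitive_stdAddChar p)
  rw [ZMod.card] at h
  convert h using 1
  split_ifs <;> simp

/-- the Fourier transform -/
noncomputable def ft (F : ZMod p → ℂ) (m : ZMod p) : ℂ := ∑ x, F x * ch (-(x * m))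

theorem parseval (F G : ZMod p → ℂ) : ∑ m, ft F m * (starRingEnd ℂ) (ft G m) =
    p * ∑ x, F x * (starRingEnd ℂ) (G x) := by
  unfold ft
  simp only [map_sum, map_mul, conj_ch, Finset.sum_mul_sum]
  rw [Finset.sum_comm]
  rw [Finset.mul_sum]
  refine Finset.sum_congr rfl fun x _ => ?_
  rw [Finset.sum_comm]
  have h : ∀ y : ZMod p, ∑ m : ZMod p, F x * ch (-(x * m)) *
      ((starRingEnd ℂ) (G y) * ch (- -(y * m))) =
      F x * (starRingEnd ℂ) (G y) * if y - x = 0 then (p : ℂ) else 0 := by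
    intro y
    rw [← sum_ch, Finset.mul_sum]
    refine Finset.sum_congr rfl fun m _ => ?_
    have e : ch (m * (y - x)) = ch (-(x * m)) * ch (- -(y * m)) := by
      rw [← ch_add]; congr 1; ring
    rw [e]
    ring
  simp only [h]
  rw [Finset.sum_eq_single x]
  · simp; ring
  · intro y _ hy
    rw [if_neg (sub_ne_zero.2 hy), mul_zero]
  · simp

theorem parseval_norm (F : ZMod p → ℂ) : ∑ m, ‖ft F m‖ ^ 2 = p * ∑ x, ‖F x‖ ^ 2 := by
  have h := parseval F F
  have e : ∀ z : ℂ, z * (starRingEnd ℂ) z = ((‖z‖ ^ 2 : ℝ) : ℂ) := fun z => by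
    rw [Complex.mul_conj, Complex.normSq_eq_norm_sq]
  simp only [e] at h
  exact_mod_cast h

theorem ft_diff (F : ZMod p → ℂ) (m : ZMod p) :
    ft (fun x => F (x + 1) - F x) m = (ch m - 1) * ft F m := by
  unfold ft
  have h1 : ∑ x : ZMod p, F (x + 1) * ch (-(x * m)) = ch m * ∑ x, F x * ch (-(x * m)) := by
    rw [Finset.mul_sum, ← Equiv.sum_comp (Equiv.addRight (1 : ZMod p))
      (fun x => ch m * (F x * ch (-(x * m))))]
    refine Finset.sum_congr rfl fun x _ => ?_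
    simp only [Equiv.coe_addRight]
    have e : ch (-(x * m)) = ch m * ch (-((x + 1) * m)) := by
      rw [← ch_add]; congr 1; ring
    rw [e]; ring
  simp only [sub_mul, Finset.sum_sub_distrib, one_mul]
  rw [h1]

theorem norm_ch_sub_one (m : ZMod p) :
    4 * min (m.val : ℝ) ((p : ℝ) - m.val) / p ≤ ‖ch m - 1‖ := by
  have hp0 : (0 : ℝ) < p := by exact_mod_cast Nat.pos_of_ne_zero (NeZero.ne p)
  have hlt : (m.val : ℝ) < p := by exact_mod_cast ZMod.val_lt m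
  have h1 : ch m = Complex.exp (((2 * Real.pi * ((m.val : ℝ) / p) : ℝ) : ℂ) * Complex.I) := by
    have h2 : ch m = ZMod.stdAddChar ((m.val : ℤ) : ZMod p) := by
      unfold ch
      congr 1
      simp
    rw [h2, ZMod.stdAddChar_coe]
    congr 1
    push_cast
    ring
  have h3 : ‖ch m - 1‖ = ‖2 * Real.sin (2 * Real.pi * ((m.val : ℝ) / p) / 2)‖ := by
    rw [h1, mul_comm, Complex.norm_exp_I_mul_ofReal_sub_one]
  set t : ℝ := (m.val : ℝ) / p with ht
  have ht0 : 0 ≤ t := by positivity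
  have ht1 : t < 1 := by rw [ht, div_lt_one hp0]; exact hlt
  have e1 : (2 : ℝ) * Real.pi * t / 2 = Real.pi * t := by ring
  rw [h3, e1, Real.norm_eq_abs]
  have hpi := Real.pi_pos
  have key : 4 * min t (1 - t) ≤ 2 * Real.sin (Real.pi * t) := by
    rcases le_or_gt t (1 / 2) with h | h
    · have h4 := Real.mul_le_sin (x := Real.pi * t) (by positivity) (by nlinarith)
      have e : 2 / Real.pi * (Real.pi * t) = 2 * t := by field_simp
      rw [e] at h4
      have := min_le_left t (1 - t)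
      linarith
    · have h4 := Real.mul_le_sin (x := Real.pi * (1 - t)) (by nlinarith) (by nlinarith)
      have e : 2 / Real.pi * (Real.pi * (1 - t)) = 2 * (1 - t) := by field_simp
      have e2 : Real.sin (Real.pi * (1 - t)) = Real.sin (Real.pi * t) := by
        rw [mul_sub, mul_one, Real.sin_pi_sub]
      rw [e, e2] at h4
      have := min_le_right t (1 - t)
      linarith
  have e3 : 4 * min (m.val : ℝ) ((p : ℝ) - m.val) / p = 4 * min t (1 - t) := by
    have : 1 - t = ((p : ℝ) - m.val) / p := by rw [ht]; field_simp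
    rw [this, ht, min_div_div_right hp0.le]
    ring
  rw [e3]
  exact key.trans (le_abs_self _)

theorem sum_inv_aux (n : ℕ) (hn : 9 ≤ n) :
    ∑ k ∈ range n, 1 / (1 + (k : ℝ) ^ 2 / 16) ≤ 691 / 100 - 16 / ((n : ℝ) - 1 / 2) := by
  induction n, hn using Nat.le_induction with
  | base => norm_num [sum_range_succ]
  | succ n hn ih =>
    rw [sum_range_succ]
    have hn' : (9 : ℝ) ≤ n := by exact_mod_cast hn
    have h1 : 1 / (1 + (n : ℝ) ^ 2 / 16) ≤
        16 / ((n : ℝ) - 1 / 2) - 16 / (((n + 1 : ℕ) : ℝ) - 1 / 2) := by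
      push_cast
      rw [div_sub_div _ _ (by nlinarith) (by nlinarith), div_le_div_iff₀ (by positivity)
        (by nlinarith)]
      nlinarith
    linarith

theorem sum_inv (n : ℕ) : ∑ k ∈ range n, 1 / (1 + (k : ℝ) ^ 2 / 16) ≤ 691 / 100 := by
  have h1 : ∑ k ∈ range n, 1 / (1 + (k : ℝ) ^ 2 / 16) ≤
      ∑ k ∈ range (n + 9), 1 / (1 + (k : ℝ) ^ 2 / 16) :=
    Finset.sum_le_sum_of_subset_of_nonneg (Finset.range_mono (by omega))
      fun k _ _ => by positivity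
  have h2 := sum_inv_aux (n + 9) (by omega)
  have h3 : (0 : ℝ) ≤ 16 / (((n + 9 : ℕ) : ℝ) - 1 / 2) := by
    have : (0 : ℝ) ≤ n := Nat.cast_nonneg _
    apply div_nonneg (by norm_num)
    push_cast
    linarith
  linarith

/-- weights -/
noncomputable def wt (m : ZMod p) : ℝ := 1 + (p : ℝ) ^ 2 / 256 * ‖ch m - 1‖ ^ 2

theorem wt_pos (m : ZMod p) : 0 < wt m := by unfold wt; positivity

theorem sum_val {M : Type*} [AddCommMonoid M] (g : ℕ → M) :
    ∑ m : ZMod p, g m.val = ∑ k ∈ range p, g k := by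
  refine Finset.sum_bij (fun m _ => m.val) (fun m _ => Finset.mem_range.2 (ZMod.val_lt m))
    (fun m _ m' _ h => ZMod.val_injective p h) (fun k hk => ?_) (fun _ _ => rfl)
  exact ⟨(k : ZMod p), Finset.mem_univ _, ZMod.val_cast_of_lt (Finset.mem_range.1 hk)⟩

theorem sum_wt_inv : ∑ m : ZMod p, 1 / wt m ≤ 641 / 50 := by
  have hp0 : (0 : ℝ) < p := by exact_mod_cast Nat.pos_of_ne_zero (NeZero.ne p)
  have hp1 : 1 ≤ p := Nat.pos_of_ne_zero (NeZero.ne p)
  have h1 : ∀ m : ZMod p, 1 / wt m ≤ 1 / (1 + (m.val : ℝ) ^ 2 / 16) +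
      1 / (1 + ((p : ℝ) - m.val) ^ 2 / 16) := by
    intro m
    have hlt : (m.val : ℝ) < p := by exact_mod_cast ZMod.val_lt m
    have h2 := norm_ch_sub_one m
    have h3 : (min (m.val : ℝ) ((p : ℝ) - m.val)) ^ 2 / 16 ≤
        (p : ℝ) ^ 2 / 256 * ‖ch m - 1‖ ^ 2 := by
      rw [div_le_iff₀ hp0] at h2
      have h4 : 0 ≤ 4 * min (m.val : ℝ) ((p : ℝ) - m.val) := by
        have : 0 ≤ min (m.val : ℝ) ((p : ℝ) - m.val) :=
          le_min (Nat.cast_nonneg _) (by linarith)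
        linarith
      have h5 := pow_le_pow_left₀ h4 h2 2
      nlinarith
    have h4 : 1 / wt m ≤ 1 / (1 + (min (m.val : ℝ) ((p : ℝ) - m.val)) ^ 2 / 16) := by
      unfold wt
      exact one_div_le_one_div_of_le (by positivity) (by linarith)
    rcases min_cases (m.val : ℝ) ((p : ℝ) - m.val) with h | h
    · rw [h.1] at h4
      have : 0 ≤ 1 / (1 + ((p : ℝ) - m.val) ^ 2 / 16) := by positivity
      linarith
    · rw [h.1] at h4
      have : 0 ≤ 1 / (1 + (m.val : ℝ) ^ 2 / 16) := by positivity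
      linarith
  refine (Finset.sum_le_sum fun m _ => h1 m).trans ?_
  rw [Finset.sum_add_distrib, sum_val (fun k => 1 / (1 + (k : ℝ) ^ 2 / 16)),
    sum_val (fun k => 1 / (1 + ((p : ℝ) - k) ^ 2 / 16))]
  have h3 : ∑ k ∈ range p, 1 / (1 + ((p : ℝ) - k) ^ 2 / 16) =
      ∑ k ∈ range (p + 1), 1 / (1 + (k : ℝ) ^ 2 / 16) - 1 := by
    rw [← Finset.sum_range_reflect (fun k => 1 / (1 + (k : ℝ) ^ 2 / 16)) (p + 1),
      Finset.sum_range_succ]
    have h4 : ∀ k ∈ range p, 1 / (1 + ((p : ℝ) - k) ^ 2 / 16) =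
        1 / (1 + (((p + 1 - 1 - k : ℕ) : ℝ)) ^ 2 / 16) := by
      intro k hk
      have := Finset.mem_range.1 hk
      rw [Nat.add_sub_cancel, Nat.cast_sub this.le]
    rw [Finset.sum_congr rfl h4]
    simp
  have h4 := sum_inv p
  have h5 := sum_inv (p + 1)
  linarith

/-- a bound for the sum of the Fourier coefficients -/
theorem sum_ft_le (F : ZMod p → ℂ) {M κ : ℝ} (hM : ∀ x, ‖F x‖ ≤ M)
    (hκ : ∀ x, ‖F (x + 1) - F x‖ ≤ κ / p) :
    ∑ m, ‖ft F m‖ ≤ Real.sqrt (641 / 50 * (M ^ 2 + κ ^ 2 / 256)) * p := by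
  have hp0 : (0 : ℝ) < p := by exact_mod_cast Nat.pos_of_ne_zero (NeZero.ne p)
  have h1 : (∑ m, ‖ft F m‖) ^ 2 ≤ (∑ m : ZMod p, 1 / wt m) * ∑ m, wt m * ‖ft F m‖ ^ 2 := by
    have h2 := Finset.sum_mul_sq_le_sq_mul_sq (Finset.univ : Finset (ZMod p))
      (fun m => Real.sqrt (1 / wt m)) (fun m => Real.sqrt (wt m) * ‖ft F m‖)
    have e1 : ∀ m : ZMod p, Real.sqrt (1 / wt m) * (Real.sqrt (wt m) * ‖ft F m‖) = ‖ft F m‖ := by
      intro m
      rw [← mul_assoc, ← Real.sqrt_mul (by have := wt_pos m; positivity),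
        one_div_mul_cancel (wt_pos m).ne', Real.sqrt_one, one_mul]
    have e2 : ∀ m : ZMod p, Real.sqrt (1 / wt m) ^ 2 = 1 / wt m := fun m =>
      Real.sq_sqrt (by have := wt_pos m; positivity)
    have e3 : ∀ m : ZMod p, (Real.sqrt (wt m) * ‖ft F m‖) ^ 2 = wt m * ‖ft F m‖ ^ 2 := by
      intro m
      rw [mul_pow, Real.sq_sqrt (wt_pos m).le]
    simp only [e1, e2, e3] at h2
    exact h2
  have h2 : ∑ m, wt m * ‖ft F m‖ ^ 2 = p * ∑ x, ‖F x‖ ^ 2 +
      p ^ 2 / 256 * (p * ∑ x, ‖F (x + 1) - F x‖ ^ 2) := by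
    rw [← parseval_norm F, ← parseval_norm (fun x => F (x + 1) - F x), Finset.mul_sum,
      ← Finset.sum_add_distrib]
    refine Finset.sum_congr rfl fun m _ => ?_
    rw [ft_diff, norm_mul, mul_pow]
    unfold wt
    ring
  have hM0 : 0 ≤ M := (norm_nonneg _).trans (hM 0)
  have h3 : ∑ x, ‖F x‖ ^ 2 ≤ p * M ^ 2 := by
    refine (Finset.sum_le_card_nsmul _ _ (M ^ 2) fun x _ =>
      pow_le_pow_left₀ (norm_nonneg _) (hM x) 2).trans (le_of_eq ?_)
    rw [Finset.card_univ, ZMod.card, nsmul_eq_mul]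
  have h4 : ∑ x, ‖F (x + 1) - F x‖ ^ 2 ≤ p * (κ / p) ^ 2 := by
    refine (Finset.sum_le_card_nsmul _ _ ((κ / p) ^ 2) fun x _ =>
      pow_le_pow_left₀ (norm_nonneg _) (hκ x) 2).trans (le_of_eq ?_)
    rw [Finset.card_univ, ZMod.card, nsmul_eq_mul]
  have h5 : ∑ m, wt m * ‖ft F m‖ ^ 2 ≤ p ^ 2 * (M ^ 2 + κ ^ 2 / 256) := by
    rw [h2]
    have h6 : (p : ℝ) * ∑ x, ‖F x‖ ^ 2 ≤ p * (p * M ^ 2) := mul_le_mul_of_nonneg_left h3 hp0.le
    have h7 : (p : ℝ) ^ 2 / 256 * (p * ∑ x, ‖F (x + 1) - F x‖ ^ 2) ≤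
        p ^ 2 / 256 * (p * (p * (κ / p) ^ 2)) := by gcongr
    have e : (p : ℝ) ^ 2 / 256 * (p * (p * (κ / p) ^ 2)) = p ^ 2 * (κ ^ 2 / 256) := by
      field_simp
    rw [e] at h7
    nlinarith
  have h6 : (∑ m, ‖ft F m‖) ^ 2 ≤ (641 / 50 * (M ^ 2 + κ ^ 2 / 256)) * (p : ℝ) ^ 2 := by
    refine h1.trans ?_
    have h7 : 0 ≤ ∑ m, wt m * ‖ft F m‖ ^ 2 :=
      Finset.sum_nonneg fun m _ => mul_nonneg (wt_pos m).le (by positivity)
    calc (∑ m : ZMod p, 1 / wt m) * ∑ m, wt m * ‖ft F m‖ ^ 2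
        ≤ 641 / 50 * ∑ m, wt m * ‖ft F m‖ ^ 2 := mul_le_mul_of_nonneg_right sum_wt_inv h7
      _ ≤ 641 / 50 * (p ^ 2 * (M ^ 2 + κ ^ 2 / 256)) := mul_le_mul_of_nonneg_left h5 (by norm_num)
      _ = _ := by ring
  have h7 : Real.sqrt (641 / 50 * (M ^ 2 + κ ^ 2 / 256)) * p =
      Real.sqrt ((641 / 50 * (M ^ 2 + κ ^ 2 / 256)) * (p : ℝ) ^ 2) := by
    have h8 := Real.sqrt_mul (by positivity : (0 : ℝ) ≤ 641 / 50 * (M ^ 2 + κ ^ 2 / 256))
      ((p : ℝ) ^ 2)
    rw [Real.sqrt_sq hp0.le] at h8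
    exact h8.symm
  rw [h7]
  exact Real.le_sqrt_of_sq_le h6

end

/-! ### Gauss sums -/

section
variable {p : ℕ} [Fact p.Prime]

theorem gauss_sq (hp2 : p ≠ 2) {α : ZMod p} (hα : α ≠ 0) (μ : ZMod p) :
    ‖∑ x : ZMod p, ch (α * x ^ 2 + μ * x)‖ ^ 2 = p := by
  have h1 : ((‖∑ x : ZMod p, ch (α * x ^ 2 + μ * x)‖ ^ 2 : ℝ) : ℂ) = p := by
    rw [← Complex.normSq_eq_norm_sq, ← Complex.mul_conj, map_sum, Finset.sum_mul_sum]
    have h2 : ∀ y : ZMod p, ∑ x : ZMod p, ch (α * x ^ 2 + μ * x) *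
        (starRingEnd ℂ) (ch (α * y ^ 2 + μ * y)) =
        ∑ h : ZMod p, ch (α * h ^ 2 + μ * h) * ch (y * (2 * α * h)) := by
      intro y
      rw [← Equiv.sum_comp (Equiv.addRight y) (fun x => ch (α * x ^ 2 + μ * x) *
        (starRingEnd ℂ) (ch (α * y ^ 2 + μ * y)))]
      refine Finset.sum_congr rfl fun h _ => ?_
      simp only [Equiv.coe_addRight]
      rw [conj_ch, ← ch_add, ← ch_add]
      congr 1
      ring
    rw [Finset.sum_comm, Finset.sum_congr rfl fun y _ => h2 y, Finset.sum_comm]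
    simp only [← Finset.mul_sum, sum_ch]
    rw [Finset.sum_eq_single (0 : ZMod p)]
    · simp
    · intro h _ hh
      have h2' : (2 : ZMod p) ≠ 0 := by
        have : ((2 : ℕ) : ZMod p) ≠ 0 := by
          rw [Ne, ZMod.natCast_eq_zero_iff]
          intro hdvd
          have h5 := (Nat.prime_dvd_prime_iff_eq (Fact.out : p.Prime) Nat.prime_two).1 hdvd
          exact hp2 h5
        simpa using this
      rw [if_neg (mul_ne_zero (mul_ne_zero h2' hα) hh), mul_zero]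
    · simp
  exact_mod_cast h1

/-- **Weighted quadratic exponential sums.** -/
theorem weighted (hp2 : p ≠ 2) {α : ZMod p} (hα : α ≠ 0) (μ : ZMod p) (F : ZMod p → ℂ) {M κ : ℝ}
    (hM : ∀ x, ‖F x‖ ≤ M) (hκ : ∀ x, ‖F (x + 1) - F x‖ ≤ κ / p) :
    ‖∑ x : ZMod p, F x * ch (α * x ^ 2 + μ * x)‖ ≤ Real.sqrt (641 / 50 * (M ^ 2 + κ ^ 2 / 256)) *
      Real.sqrt p := by
  have hp0 : (0 : ℝ) < p := by exact_mod_cast (Fact.out : p.Prime).pos
  have h1 := parseval F (fun x => (starRingEnd ℂ) (ch (α * x ^ 2 + μ * x)))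
  simp only [Complex.conj_conj] at h1
  have h2 : ∀ m : ZMod p, ‖ft (fun x => (starRingEnd ℂ) (ch (α * x ^ 2 + μ * x))) m‖ =
      Real.sqrt p := by
    intro m
    have h3 : ft (fun x => (starRingEnd ℂ) (ch (α * x ^ 2 + μ * x))) m =
        (starRingEnd ℂ) (∑ x : ZMod p, ch (α * x ^ 2 + (μ + m) * x)) := by
      unfold ft
      rw [map_sum]
      refine Finset.sum_congr rfl fun x _ => ?_
      show (starRingEnd ℂ) (ch (α * x ^ 2 + μ * x)) * ch (-(x * m)) = _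
      rw [conj_ch, conj_ch, ← ch_add]
      congr 1
      ring
    rw [h3, RCLike.norm_conj, ← gauss_sq hp2 hα (μ + m), Real.sqrt_sq (norm_nonneg _)]
  have h3 : ‖(p : ℂ) * ∑ x, F x * ch (α * x ^ 2 + μ * x)‖ ≤
      Real.sqrt (641 / 50 * (M ^ 2 + κ ^ 2 / 256)) * p * Real.sqrt p := by
    rw [← h1]
    refine (norm_sum_le _ _).trans ?_
    have h4 : ∀ m : ZMod p, ‖ft F m * (starRingEnd ℂ)
        (ft (fun x => (starRingEnd ℂ) (ch (α * x ^ 2 + μ * x))) m)‖ = ‖ft F m‖ * Real.sqrt p := by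
      intro m
      rw [norm_mul, RCLike.norm_conj, h2]
    rw [Finset.sum_congr rfl fun m _ => h4 m, ← Finset.sum_mul]
    exact mul_le_mul_of_nonneg_right (sum_ft_le F hM hκ) (Real.sqrt_nonneg _)
  rw [norm_mul, Complex.norm_natCast] at h3
  have h4 : (p : ℝ) * ‖∑ x, F x * ch (α * x ^ 2 + μ * x)‖ ≤
      p * (Real.sqrt (641 / 50 * (M ^ 2 + κ ^ 2 / 256)) * Real.sqrt p) := by linarith
  exact le_of_mul_le_mul_left h4 hp0

end

end Pool.Agent.H239.WH
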