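import Pool.Agent.H239.WH.Part1

set_option autoImplicit false
set_option linter.unusedSectionVars false

/-!
# The window and the weighted cubic sums
-/

namespace Pool.Agent.H239.WH

open Finset

/-- the window `sin(πt/2d)` on `[0,2d]` -/
noncomputable def W (d : ℕ) (t : ℤ) : ℝ :=
  Real.cos (Real.pi * max (min ((t : ℝ) / (2 * d) - 1 / 2) (1 / 2)) (-(1 / 2)))

section
variable {d : ℕ} [NeZero d]

theorem d_pos : (0 : ℝ) < d := by exact_mod_cast Nat.pos_of_ne_zero (NeZero.ne d)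

theorem abs_W_le (t : ℤ) : |W d t| ≤ 1 := Real.abs_cos_le_one _

theorem W_zero_of_le {t : ℤ} (ht : t ≤ 0) : W d t = 0 := by
  have hd := d_pos (d := d)
  have h1 : (t : ℝ) / (2 * d) - 1 / 2 ≤ -(1 / 2) := by
    have : (t : ℝ) / (2 * d) ≤ 0 :=
      div_nonpos_of_nonpos_of_nonneg (by exact_mod_cast ht) (by positivity)
    linarith
  have h2 : min ((t : ℝ) / (2 * d) - 1 / 2) (1 / 2) ≤ -(1 / 2) := (min_le_left _ _).trans h1
  unfold W
  rw [max_eq_right h2]
  have : Real.pi * -(1 / 2) = -(Real.pi / 2) := by ring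
  rw [this, Real.cos_neg, Real.cos_pi_div_two]

theorem W_zero_of_ge {t : ℤ} (ht : 2 * (d : ℤ) ≤ t) : W d t = 0 := by
  have hd := d_pos (d := d)
  have h1 : 1 / 2 ≤ (t : ℝ) / (2 * d) - 1 / 2 := by
    have : 1 ≤ (t : ℝ) / (2 * d) := by
      rw [le_div_iff₀ (by positivity)]
      have : ((2 * (d : ℤ) : ℤ) : ℝ) ≤ t := by exact_mod_cast ht
      push_cast at this
      linarith
    linarith
  unfold W
  rw [min_eq_right h1, max_eq_left (by norm_num)]
  have : Real.pi * (1 / 2) = Real.pi / 2 := by ring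
  rw [this, Real.cos_pi_div_two]

theorem W_eq {t : ℤ} (h0 : 0 ≤ t) (h1 : t ≤ 2 * (d : ℤ)) :
    W d t = Real.sin (Real.pi * t / (2 * d)) := by
  have hd := d_pos (d := d)
  have h2 : (t : ℝ) / (2 * d) ≤ 1 := by
    rw [div_le_iff₀ (by positivity)]
    have : (t : ℝ) ≤ ((2 * (d : ℤ) : ℤ) : ℝ) := by exact_mod_cast h1
    push_cast at this
    linarith
  have h3 : 0 ≤ (t : ℝ) / (2 * d) := div_nonneg (by exact_mod_cast h0) (by positivity)
  unfold W
  rw [min_eq_left (by linarith), max_eq_left (by linarith)]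
  have : Real.pi * ((t : ℝ) / (2 * d) - 1 / 2) = Real.pi * t / (2 * d) - Real.pi / 2 := by ring
  rw [this, Real.cos_sub_pi_div_two]

theorem W_diff (t : ℤ) : |W d (t + 1) - W d t| ≤ Real.pi / (2 * d) := by
  have hd := d_pos (d := d)
  unfold W
  refine (Real.abs_cos_sub_cos_le _ _).trans ?_
  rw [← mul_sub, abs_mul, abs_of_pos Real.pi_pos]
  have h1 := abs_max_sub_max_le_abs (min (((t + 1 : ℤ) : ℝ) / (2 * d) - 1 / 2) (1 / 2))
    (min ((t : ℝ) / (2 * d) - 1 / 2) (1 / 2)) (-(1 / 2) : ℝ)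
  have h2 := abs_min_sub_min_le_max (((t + 1 : ℤ) : ℝ) / (2 * d) - 1 / 2) (1 / 2 : ℝ)
    ((t : ℝ) / (2 * d) - 1 / 2) (1 / 2)
  have e : (((t + 1 : ℤ) : ℝ) / (2 * d) - 1 / 2) - ((t : ℝ) / (2 * d) - 1 / 2) = 1 / (2 * d) := by
    push_cast
    ring
  have h3 : |(1 : ℝ) / (2 * d)| = 1 / (2 * d) := abs_of_pos (by positivity)
  rw [e, sub_self, abs_zero, h3, max_eq_left (by positivity)] at h2
  calc Real.pi * _ ≤ Real.pi * (1 / (2 * d)) :=
        mul_le_mul_of_nonneg_left (h1.trans h2) Real.pi_pos.le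
    _ = _ := by ring

theorem W_sq_add {t : ℤ} (h0 : 0 ≤ t) (h1 : t ≤ d) : W d t ^ 2 + W d (t + d) ^ 2 = 1 := by
  have hd := d_pos (d := d)
  rw [W_eq h0 (by omega), W_eq (by omega : (0 : ℤ) ≤ t + d) (by omega)]
  have e : Real.pi * ((t + (d : ℤ) : ℤ) : ℝ) / (2 * d) = Real.pi * t / (2 * d) + Real.pi / 2 := by
    push_cast
    field_simp
  rw [e, Real.sin_add_pi_div_two]
  exact Real.sin_sq_add_cos_sq _

end

/-- `e(θ)` -/
noncomputable def ee (θ : ℝ) : ℂ := Complex.exp (((2 * Real.pi * θ : ℝ) : ℂ) * Complex.I)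

theorem norm_ee (θ : ℝ) : ‖ee θ‖ = 1 := Complex.norm_exp_ofReal_mul_I _

theorem ee_add (x y : ℝ) : ee (x + y) = ee x * ee y := by
  unfold ee
  rw [← Complex.exp_add]
  congr 1
  push_cast
  ring

theorem norm_ee_sub_one (θ : ℝ) : ‖ee θ - 1‖ ≤ 2 * Real.pi * |θ| := by
  unfold ee
  have h := Real.norm_exp_I_mul_ofReal_sub_one_le (x := 2 * Real.pi * θ)
  rw [mul_comm] at h
  refine h.trans (le_of_eq ?_)
  rw [Real.norm_eq_abs, abs_mul, abs_of_pos (by have := Real.pi_pos; positivity)]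

theorem ch_int {N : ℕ} [NeZero N] (m : ℤ) : ch ((m : ℤ) : ZMod N) = ee ((m : ℝ) / N) := by
  unfold ch ee
  rw [ZMod.stdAddChar_coe]
  congr 1
  push_cast
  ring

section
variable {d p : ℕ} [NeZero d] [Fact p.Prime]

/-- the key estimate -/
theorem key (h2 : 2 * d < p) (h4 : p ≤ 4 * d) (h b : ℤ) (hh : ((h : ℤ) : ZMod p) ≠ 0) 
    (h3 : (3 : ZMod p) ≠ 0) :
    ‖∑ y ∈ range p, (((W d y * W d (y + h) : ℝ) : ℂ) * (ch (((y : ℕ) : ZMod p) ^ 3) *
      (starRingEnd ℂ) (ch ((((y : ℤ) + h : ℤ) : ZMod p) ^ 3))) * ee ((b * y : ℝ) / d))‖ ≤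
      502 / 100 * Real.sqrt p := by
  have hd := d_pos (d := d)
  have hp0 : (0 : ℝ) < p := by exact_mod_cast (Fact.out : p.Prime).pos
  have hpi := Real.pi_pos
  set m : ℤ := round ((b : ℝ) * p / d) with hm
  set β : ℝ := (b : ℝ) / d - m / p with hβ
  have hβ1 : |β| ≤ 1 / (2 * p) := by
    have h1 := abs_sub_round ((b : ℝ) * p / d)
    have h2 : β = ((b : ℝ) * p / d - m) / p := by
      rw [hβ]; field_simp
    rw [h2, abs_div, abs_of_pos hp0, div_le_div_iff₀ hp0 (by positivity)]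
    nlinarith
  have e1 : ∀ y : ℕ, ee ((b * y : ℝ) / d) = ch ((m : ZMod p) * (y : ZMod p)) * ee (β * y) := by
    intro y
    have h5 : ch ((m : ZMod p) * (y : ZMod p)) = ee ((m * y : ℝ) / p) := by
      have := ch_int (N := p) (m * y)
      push_cast at this
      exact this
    rw [h5, ← ee_add]
    congr 1
    rw [hβ]
    ring
  set F : ZMod p → ℂ := fun x => ((W d x.val * W d (x.val + h) : ℝ) : ℂ) * ee (β * x.val) with hF
  have hM : ∀ x, ‖F x‖ ≤ 1 := by
    intro x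
    simp only [hF]
    rw [norm_mul, norm_ee, mul_one, Complex.norm_real, Real.norm_eq_abs, abs_mul]
    exact mul_le_one₀ (abs_W_le _) (abs_nonneg _) (abs_W_le _)
  have hdiff : ∀ y : ℕ, ‖((W d (y + 1 : ℕ) * W d ((y + 1 : ℕ) + h) : ℝ) : ℂ) * ee (β * (y + 1 : ℕ)) -
      ((W d y * W d (y + h) : ℝ) : ℂ) * ee (β * y)‖ ≤ 5 * Real.pi / p := by
    intro y
    have e2 : ee (β * (y + 1 : ℕ)) = ee (β * y) * ee β := by
      rw [← ee_add]; congr 1; push_cast; ring
    have e3 : ((W d (y + 1 : ℕ) * W d ((y + 1 : ℕ) + h) : ℝ) : ℂ) * ee (β * (y + 1 : ℕ)) -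
      ((W d y * W d (y + h) : ℝ) : ℂ) * ee (β * y) = ee (β * y) * (
        (((W d (y + 1 : ℕ) - W d y) * W d ((y + 1 : ℕ) + h) : ℝ) : ℂ) * ee β +
        ((W d y * (W d ((y + 1 : ℕ) + h) - W d (y + h)) : ℝ) : ℂ) * ee β +
        ((W d y * W d (y + h) : ℝ) : ℂ) * (ee β - 1)) := by
      rw [e2]
      push_cast
      ring
    rw [e3, norm_mul, norm_ee, one_mul]
    refine (norm_add_le _ _).trans ?_
    have g0 : Real.pi / (2 * d) ≤ 2 * Real.pi / p := by
      rw [div_le_div_iff₀ (by positivity) hp0]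
      have : (p : ℝ) ≤ 4 * d := by exact_mod_cast h4
      nlinarith
    have g1 : ‖(((W d (y + 1 : ℕ) - W d y) * W d ((y + 1 : ℕ) + h) : ℝ) : ℂ) * ee β‖ ≤
        2 * Real.pi / p := by
      rw [norm_mul, norm_ee, mul_one, Complex.norm_real, Real.norm_eq_abs, abs_mul]
      have h6 := W_diff (d := d) (y : ℤ)
      have h7 := abs_W_le (d := d) ((y + 1 : ℕ) + h)
      push_cast at h6 h7 ⊢
      calc _ ≤ |W d (↑y + 1) - W d ↑y| * 1 := mul_le_mul_of_nonneg_left h7 (abs_nonneg _)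
        _ ≤ _ := by linarith
    have g2 : ‖((W d y * (W d ((y + 1 : ℕ) + h) - W d (y + h)) : ℝ) : ℂ) * ee β‖ ≤
        2 * Real.pi / p := by
      rw [norm_mul, norm_ee, mul_one, Complex.norm_real, Real.norm_eq_abs, abs_mul]
      have h6 := W_diff (d := d) ((y : ℤ) + h)
      have h7 := abs_W_le (d := d) (y : ℤ)
      have e4 : ((y + 1 : ℕ) : ℤ) + h = (y : ℤ) + h + 1 := by push_cast; ring
      rw [e4]
      calc _ ≤ 1 * |W d ((y : ℤ) + h + 1) - W d (y + h)| :=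
            mul_le_mul_of_nonneg_right h7 (abs_nonneg _)
        _ ≤ _ := by linarith
    have g3 : ‖((W d y * W d (y + h) : ℝ) : ℂ) * (ee β - 1)‖ ≤ Real.pi / p := by
      rw [norm_mul, Complex.norm_real, Real.norm_eq_abs, abs_mul]
      have h6 := norm_ee_sub_one β
      have h7 : |W d y| * |W d (y + h)| ≤ 1 := mul_le_one₀ (abs_W_le _) (abs_nonneg _) (abs_W_le _)
      calc _ ≤ 1 * ‖ee β - 1‖ := mul_le_mul_of_nonneg_right h7 (norm_nonneg _)
        _ ≤ 2 * Real.pi * |β| := by linarith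
        _ ≤ 2 * Real.pi * (1 / (2 * p)) := mul_le_mul_of_nonneg_left hβ1 (by positivity)
        _ = _ := by field_simp
    refine (add_le_add ((norm_add_le _ _).trans (add_le_add g1 g2)) g3).trans (le_of_eq ?_)
    ring
  have hκ : ∀ x, ‖F (x + 1) - F x‖ ≤ (5 * Real.pi) / p := by
    intro x
    rcases eq_or_ne (x.val + 1) p with hx | hx
    · have e2 : x + 1 = 0 := by
        have h5 : ((x.val + 1 : ℕ) : ZMod p) = 0 := by rw [hx]; simp
        push_cast at h5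
        rwa [ZMod.natCast_zmod_val] at h5
      have e3 : F (x + 1) = 0 := by
        rw [e2]
        simp only [hF, ZMod.val_zero]
        rw [W_zero_of_le (by simp)]
        simp
      have e4 : F x = 0 := by
        simp only [hF]
        rw [W_zero_of_ge (t := (x.val : ℤ)) (by omega)]
        simp
      rw [e3, e4, sub_zero, norm_zero]
      positivity
    · have hlt : x.val + 1 < p := lt_of_le_of_ne (ZMod.val_lt x) hx
      have e2 : (x + 1).val = x.val + 1 := by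
        have hp1 : 1 < p := (Fact.out : p.Prime).one_lt
        have : Fact (1 < p) := ⟨hp1⟩
        rw [ZMod.val_add_of_lt]
        · rw [ZMod.val_one]
        · rw [ZMod.val_one]; exact hlt
      simp only [hF]
      rw [e2]
      exact hdiff x.val
  have hp2 : p ≠ 2 := by
    have : 0 < d := Nat.pos_of_ne_zero (NeZero.ne d)
    omega
  have hα : (-(3 * (h : ZMod p))) ≠ 0 := neg_ne_zero.2 (mul_ne_zero h3 hh)
  have hw := weighted hp2 hα ((m : ZMod p) - 3 * (h : ZMod p) ^ 2) F hM hκ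
  have hsum : ∑ y ∈ range p, (((W d y * W d (y + h) : ℝ) : ℂ) * (ch (((y : ℕ) : ZMod p) ^ 3) *
      (starRingEnd ℂ) (ch ((((y : ℤ) + h : ℤ) : ZMod p) ^ 3))) * ee ((b * y : ℝ) / d)) =
      ch (-((h : ZMod p) ^ 3)) * ∑ x : ZMod p, F x * ch (-(3 * (h : ZMod p)) * x ^ 2 +
        ((m : ZMod p) - 3 * (h : ZMod p) ^ 2) * x) := by
    rw [← sum_val (p := p) (fun y => (((W d y * W d (y + h) : ℝ) : ℂ) *
      (ch (((y : ℕ) : ZMod p) ^ 3) *
      (starRingEnd ℂ) (ch ((((y : ℤ) + h : ℤ) : ZMod p) ^ 3))) * ee ((b * y : ℝ) / d))),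
      Finset.mul_sum]
    refine Finset.sum_congr rfl fun x _ => ?_
    rw [e1]
    simp only [hF]
    have e5 : ch (-((h : ZMod p) ^ 3)) * ch (-(3 * (h : ZMod p)) * x ^ 2 +
        ((m : ZMod p) - 3 * (h : ZMod p) ^ 2) * x) =
        ch (((x.val : ℕ) : ZMod p) ^ 3) *
      (starRingEnd ℂ) (ch ((((x.val : ℤ) + h : ℤ) : ZMod p) ^ 3)) *
        ch ((m : ZMod p) * ((x.val : ℕ) : ZMod p)) := by
      rw [conj_ch, ← ch_add, ← ch_add, ← ch_add]
      congr 1
      push_cast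
      rw [ZMod.natCast_zmod_val]
      ring
    calc _ = ((W d x.val * W d (x.val + h) : ℝ) : ℂ) * ee (β * x.val) *
        (ch (((x.val : ℕ) : ZMod p) ^ 3) *
      (starRingEnd ℂ) (ch ((((x.val : ℤ) + h : ℤ) : ZMod p) ^ 3)) *
        ch ((m : ZMod p) * ((x.val : ℕ) : ZMod p))) := by ring
      _ = _ := by rw [← e5]; ring
  rw [hsum, norm_mul, norm_ch, one_mul]
  refine hw.trans (mul_le_mul_of_nonneg_right ?_ (Real.sqrt_nonneg _))
  rw [Real.sqrt_le_left (by norm_num)]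
  have hpi2 : Real.pi < 3.1416 := Real.pi_lt_d4
  nlinarith

end

end Pool.Agent.H239.WH
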