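import Pool.Agent.H239.WH.Part2

set_option autoImplicit false
set_option linter.unusedSectionVars false

/-!
# A state with small Weyl–Heisenberg correlations in every dimension
-/

namespace Pool.Agent.H239.WH

open Finset

/-- the Weyl–Heisenberg correlation `⟨φ, X^a Z^b ψ⟩` (shifted form) -/
noncomputable def B {d : ℕ} [NeZero d] (φ ψ : ZMod d → ℂ) (a b : ZMod d) : ℂ :=
  ∑ i, (starRingEnd ℂ) (φ (i + a)) * ψ i * ch (b * i)

section
variable {d p : ℕ} [NeZero d] [NeZero p]

/-- the windowed cubic phase -/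
noncomputable def Phi (d p : ℕ) [NeZero p] (x : ℤ) : ℂ := (W d x : ℂ) * ch ((x : ZMod p) ^ 3)

theorem Phi_zero_of_le {x : ℤ} (hx : x ≤ 0) : Phi d p x = 0 := by
  unfold Phi; rw [W_zero_of_le hx]; simp

theorem Phi_zero_of_ge {x : ℤ} (hx : 2 * (d : ℤ) ≤ x) : Phi d p x = 0 := by
  unfold Phi; rw [W_zero_of_ge hx]; simp

/-- the folded vector (times `√d`) -/
noncomputable def psi (d p : ℕ) [NeZero d] [NeZero p] (j : ZMod d) : ℂ :=
  Phi d p j.val + Phi d p (j.val + d)

/-- the sum with a fixed shift -/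
noncomputable def T (d p : ℕ) [NeZero d] [NeZero p] (h : ℤ) (b : ZMod d) : ℂ :=
  ∑ y ∈ range (2 * d), Phi d p y * (starRingEnd ℂ) (Phi d p (y + h)) * ch (b * (y : ZMod d))

theorem T_eq (h : ℤ) (b : ZMod d) : T d p h b = ∑ i : ZMod d,
    ((Phi d p i.val * (starRingEnd ℂ) (Phi d p (i.val + h)) +
     Phi d p (i.val + d) * (starRingEnd ℂ) (Phi d p (i.val + d + h))) * ch (b * i)) := by
  unfold T
  rw [two_mul, Finset.sum_range_add, ← sum_val (p := d), ← sum_val (p := d),
    ← Finset.sum_add_distrib]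
  refine Finset.sum_congr rfl fun i _ => ?_
  push_cast
  rw [ZMod.natCast_self, ZMod.natCast_zmod_val]
  have : (d : ℤ) + (i.val : ℤ) = i.val + d := by ring
  rw [this, zero_add]
  ring

theorem fold (z : ℤ) (n : ℕ) (hn : n ≤ 2) (h0 : 0 ≤ z) (h1 : z < d) :
    Phi d p z + Phi d p (z + d) = Phi d p (z + n * d + (-2) * d) + Phi d p (z + n * d + (-1) * d) +
      Phi d p (z + n * d) + Phi d p (z + n * d + d) := by
  have hd : 0 < (d : ℤ) := by exact_mod_cast Nat.pos_of_ne_zero (NeZero.ne d)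
  interval_cases n
  · rw [Phi_zero_of_le (x := z + (0 : ℕ) * d + (-2) * d) (by push_cast; linarith),
      Phi_zero_of_le (x := z + (0 : ℕ) * d + (-1) * d) (by push_cast; linarith)]
    simp
  · rw [Phi_zero_of_le (x := z + (1 : ℕ) * d + (-2) * d) (by push_cast; linarith),
      Phi_zero_of_ge (x := z + (1 : ℕ) * d + d) (by push_cast; linarith)]
    simp
  · rw [Phi_zero_of_ge (x := z + (2 : ℕ) * d) (by push_cast; linarith),
      Phi_zero_of_ge (x := z + (2 : ℕ) * d + d) (by push_cast; linarith)]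
    have e1 : z + (2 : ℕ) * (d : ℤ) + (-2) * d = z := by push_cast; ring
    have e2 : z + (2 : ℕ) * (d : ℤ) + (-1) * d = z + d := by push_cast; ring
    rw [e1, e2]
    simp

theorem psi_shift (i a : ZMod d) (s : ℕ) (hs : s ≤ 1) :
    psi d p (i + a) = Phi d p ((i.val + s * d : ℤ) + (a.val + (-2) * d)) +
      Phi d p ((i.val + s * d : ℤ) + (a.val + (-1) * d)) +
      Phi d p ((i.val + s * d : ℤ) + a.val) + Phi d p ((i.val + s * d : ℤ) + (a.val + d)) := by
  have h0 := ZMod.val_add i a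
  have hi := ZMod.val_lt i
  have ha := ZMod.val_lt a
  have h1 : ∃ n : ℕ, n ≤ 1 ∧ i.val + a.val = (i + a).val + n * d := by
    rcases lt_or_ge (i.val + a.val) d with h | h
    · exact ⟨0, by omega, by rw [h0, Nat.mod_eq_of_lt h]; simp⟩
    · refine ⟨1, le_refl _, ?_⟩
      rw [h0, Nat.mod_eq_sub_mod h, Nat.mod_eq_of_lt (by omega)]
      omega
  obtain ⟨n, hn, h1⟩ := h1
  have h2 := fold (d := d) (p := p) (((i + a).val : ℕ) : ℤ) (n + s) (by omega) (by omega)
    (by exact_mod_cast ZMod.val_lt (i + a))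
  unfold psi
  rw [h2]
  have h1' : (i.val : ℤ) + a.val = (i + a).val + n * d := by exact_mod_cast h1
  have e1 : (((i + a).val : ℕ) : ℤ) + (n + s : ℕ) * d = (i.val + s * d : ℤ) + a.val := by
    push_cast
    linarith
  rw [e1]
  congr 1
  · congr 1
    congr 1
    · congr 1; ring
    · congr 1; ring
  · congr 1; ring

theorem B_psi (a b : ZMod d) : B (psi d p) (psi d p) a b =
    T d p (a.val + (-2) * d) b + T d p (a.val + (-1) * d) b + T d p a.val b +
      T d p (a.val + d) b := by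
  unfold B
  rw [T_eq, T_eq, T_eq, T_eq, ← Finset.sum_add_distrib, ← Finset.sum_add_distrib,
    ← Finset.sum_add_distrib]
  refine Finset.sum_congr rfl fun i _ => ?_
  have h0 := psi_shift (p := p) i a 0 (by norm_num)
  have h1 := psi_shift (p := p) i a 1 (by norm_num)
  push_cast at h0 h1
  rw [zero_mul, add_zero] at h0
  rw [one_mul] at h1
  have e : (starRingEnd ℂ) (psi d p (i + a)) * psi d p i * ch (b * i) =
      (Phi d p i.val * (starRingEnd ℂ) (psi d p (i + a)) +
       Phi d p (i.val + d) * (starRingEnd ℂ) (psi d p (i + a))) * ch (b * i) := by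
    conv_lhs => rw [psi.eq_1 d p i]
    ring
  rw [e]
  conv_lhs => 
    rw [show Phi d p i.val * (starRingEnd ℂ) (psi d p (i + a)) +
       Phi d p (i.val + d) * (starRingEnd ℂ) (psi d p (i + a)) =
       Phi d p i.val * (starRingEnd ℂ) (Phi d p ((i.val : ℤ) + (a.val + (-2) * d)) +
      Phi d p ((i.val : ℤ) + (a.val + (-1) * d)) +
      Phi d p ((i.val : ℤ) + a.val) + Phi d p ((i.val : ℤ) + (a.val + d))) +
       Phi d p (i.val + d) * (starRingEnd ℂ) (Phi d p ((i.val + d : ℤ) + (a.val + (-2) * d)) +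
      Phi d p ((i.val + d : ℤ) + (a.val + (-1) * d)) +
      Phi d p ((i.val + d : ℤ) + a.val) + Phi d p ((i.val + d : ℤ) + (a.val + d))) by
        rw [← h0, ← h1]]
  simp only [map_add]
  ring

theorem T_low {h : ℤ} (hh : h ≤ -2 * (d : ℤ)) (b : ZMod d) : T d p h b = 0 := by
  unfold T
  refine Finset.sum_eq_zero fun y hy => ?_
  have := Finset.mem_range.1 hy
  rw [Phi_zero_of_le (x := (y : ℤ) + h) (by omega)]
  simp

theorem T_zero (b : ZMod d) : T d p 0 b = if b = 0 then (d : ℂ) else 0 := by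
  have hd : 0 < (d : ℤ) := by exact_mod_cast Nat.pos_of_ne_zero (NeZero.ne d)
  rw [T_eq, ← sum_ch b]
  refine Finset.sum_congr rfl fun i _ => ?_
  have hi := ZMod.val_lt i
  have e : ∀ x : ℤ, Phi d p x * (starRingEnd ℂ) (Phi d p x) = ((W d x ^ 2 : ℝ) : ℂ) := by
    intro x
    unfold Phi
    rw [map_mul, Complex.conj_ofReal]
    have h1 : ch ((x : ZMod p) ^ 3) * (starRingEnd ℂ) (ch ((x : ZMod p) ^ 3)) = 1 := by
      rw [conj_ch, ← ch_add, add_neg_cancel, ch_zero]
    calc _ = (W d x : ℂ) * W d x * (ch ((x : ZMod p) ^ 3) *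
        (starRingEnd ℂ) (ch ((x : ZMod p) ^ 3))) := by ring
      _ = _ := by rw [h1]; push_cast; ring
  rw [add_zero, add_zero, e, e, ← Complex.ofReal_add, W_sq_add (by omega) (by omega)]
  rw [Complex.ofReal_one, one_mul, mul_comm]

end

section
variable {d p : ℕ} [NeZero d] [Fact p.Prime]

theorem T_bound (h2 : 2 * d < p) (h4 : p ≤ 4 * d) (h3 : (3 : ZMod p) ≠ 0) (h : ℤ) (b : ZMod d)
    (h0 : h ≠ 0) (hl : -2 * (d : ℤ) ≤ h) (hu : h < 2 * (d : ℤ)) :
    ‖T d p h b‖ ≤ 502 / 100 * Real.sqrt p := by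
  have hh : ((h : ℤ) : ZMod p) ≠ 0 := by
    rw [Ne, ZMod.intCast_zmod_eq_zero_iff_dvd]
    intro hdvd
    have := Int.eq_zero_of_abs_lt_dvd hdvd (by rw [abs_lt]; constructor <;> omega)
    exact h0 this
  have h5 := key h2 h4 h (b.val : ℤ) hh h3
  have e : T d p h b = ∑ y ∈ range p, (((W d y * W d (y + h) : ℝ) : ℂ) *
      (ch (((y : ℕ) : ZMod p) ^ 3) *
      (starRingEnd ℂ) (ch ((((y : ℤ) + h : ℤ) : ZMod p) ^ 3))) *
        ee ((((b.val : ℤ) : ℝ) * y : ℝ) / d)) := by
    have e1 : T d p h b = ∑ y ∈ range p,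
        Phi d p y * (starRingEnd ℂ) (Phi d p (y + h)) * ch (b * (y : ZMod d)) := by
      unfold T
      refine Finset.sum_subset (Finset.range_mono h2.le) fun y _ hy => ?_
      rw [Finset.mem_range, not_lt] at hy
      rw [Phi_zero_of_ge (x := (y : ℤ)) (by omega)]
      simp
    rw [e1]
    refine Finset.sum_congr rfl fun y _ => ?_
    have e2 : ch (b * (y : ZMod d)) = ee ((((b.val : ℤ) : ℝ) * y : ℝ) / d) := by
      have := ch_int (N := d) ((b.val : ℤ) * y)
      push_cast at this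
      rw [ZMod.natCast_zmod_val] at this
      rw [this]
      push_cast
      rfl
    rw [e2]
    unfold Phi
    rw [map_mul, Complex.conj_ofReal]
    push_cast
    ring
  rw [e]
  exact h5

end

end Pool.Agent.H239.WH
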