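import Pool.Agent.H239.WH.Part3

set_option autoImplicit false
set_option linter.unusedSectionVars false

/-!
# The bound in every dimension, moments
-/

namespace Pool.Agent.H239.WH

open Finset

section
variable {d : ℕ} [NeZero d]

theorem B_smul (c : ℝ) (ψ : ZMod d → ℂ) (a b : ZMod d) :
    B (fun i => (c : ℂ) * ψ i) (fun i => (c : ℂ) * ψ i) a b = ((c ^ 2 : ℝ) : ℂ) * B ψ ψ a b := by
  unfold B
  rw [Finset.mul_sum]
  refine Finset.sum_congr rfl fun i _ => ?_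
  rw [map_mul, Complex.conj_ofReal]
  push_cast
  ring

theorem B_zero (ψ : ZMod d → ℂ) : B ψ ψ 0 0 = ((∑ i, ‖ψ i‖ ^ 2 : ℝ) : ℂ) := by
  unfold B
  push_cast
  refine Finset.sum_congr rfl fun i _ => ?_
  rw [add_zero, zero_mul, ch_zero, mul_one, mul_comm, Complex.mul_conj,
    Complex.normSq_eq_norm_sq]
  push_cast
  rfl

theorem B_le_one {ψ : ZMod d → ℂ} (h : ∑ i, ‖ψ i‖ ^ 2 = 1) (a b : ZMod d) :
    ‖B ψ ψ a b‖ ≤ 1 := by
  unfold B
  refine (norm_sum_le _ _).trans ?_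
  have h1 : ∀ i : ZMod d, ‖(starRingEnd ℂ) (ψ (i + a)) * ψ i * ch (b * i)‖ ≤
      (‖ψ (i + a)‖ ^ 2 + ‖ψ i‖ ^ 2) / 2 := by
    intro i
    rw [norm_mul, norm_mul, norm_ch, RCLike.norm_conj]
    nlinarith [sq_nonneg (‖ψ (i + a)‖ - ‖ψ i‖)]
  refine (Finset.sum_le_sum fun i _ => h1 i).trans ?_
  rw [← Finset.sum_div, Finset.sum_add_distrib, h]
  have h2 : ∑ i, ‖ψ (i + a)‖ ^ 2 = 1 := by
    rw [← h]
    exact Equiv.sum_comp (Equiv.addRight a) (fun i => ‖ψ i‖ ^ 2)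
  rw [h2]
  norm_num

theorem unit_exists : ∃ ψ : ZMod d → ℂ, ∑ i, ‖ψ i‖ ^ 2 = 1 := by
  refine ⟨Pi.single 0 1, ?_⟩
  rw [Finset.sum_eq_single (0 : ZMod d)]
  · simp
  · intro b _ hb
    rw [Pi.single_eq_of_ne hb]
    simp
  · simp

/-- normalisation -/
theorem normalise {ψ : ZMod d → ℂ} {N : ℝ} (hN : 0 < N) (h : ∑ i, ‖ψ i‖ ^ 2 = N) :
    ∃ φ : ZMod d → ℂ, ∑ i, ‖φ i‖ ^ 2 = 1 ∧ ∀ a b, ‖B φ φ a b‖ = ‖B ψ ψ a b‖ / N := by
  have hs : (0 : ℝ) < 1 / Real.sqrt N := by positivity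
  have hs2 : (1 / Real.sqrt N) ^ 2 = 1 / N := by
    rw [div_pow, one_pow, Real.sq_sqrt hN.le]
  refine ⟨fun i => ((1 / Real.sqrt N : ℝ) : ℂ) * ψ i, ?_, fun a b => ?_⟩
  · have : ∀ i, ‖((1 / Real.sqrt N : ℝ) : ℂ) * ψ i‖ ^ 2 = 1 / N * ‖ψ i‖ ^ 2 := by
      intro i
      rw [norm_mul, mul_pow, Complex.norm_real, Real.norm_eq_abs, sq_abs, hs2]
    simp only [this]
    rw [← Finset.mul_sum, h]
    field_simp
  · rw [B_smul, norm_mul, Complex.norm_real, hs2, Real.norm_eq_abs, abs_of_pos (by positivity)]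
    ring

theorem sum_B_sq (ψ : ZMod d → ℂ) :
    ∑ a, ∑ b, ‖B ψ ψ a b‖ ^ 2 = d * (∑ i, ‖ψ i‖ ^ 2) ^ 2 := by
  have h1 : ∀ a : ZMod d, ∑ b, ‖B ψ ψ a b‖ ^ 2 = d * ∑ i, ‖ψ (i + a)‖ ^ 2 * ‖ψ i‖ ^ 2 := by
    intro a
    have h2 := parseval_norm (p := d) (fun i => (starRingEnd ℂ) (ψ (i + a)) * ψ i)
    have h3 : ∑ b, ‖B ψ ψ a b‖ ^ 2 =
        ∑ m, ‖ft (fun i => (starRingEnd ℂ) (ψ (i + a)) * ψ i) m‖ ^ 2 := by
      rw [← Equiv.sum_comp (Equiv.neg (ZMod d)) (fun b => ‖B ψ ψ a b‖ ^ 2)]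
      refine Finset.sum_congr rfl fun m _ => ?_
      congr 2
      unfold B ft
      refine Finset.sum_congr rfl fun i _ => ?_
      simp only [Equiv.neg_apply]
      congr 2
      ring
    rw [h3, h2]
    congr 1
    refine Finset.sum_congr rfl fun i _ => ?_
    rw [norm_mul, mul_pow, RCLike.norm_conj]
  rw [Finset.sum_congr rfl fun a _ => h1 a, ← Finset.mul_sum, Finset.sum_comm, sq,
    Finset.sum_mul_sum]
  congr 1
  rw [Finset.sum_comm]
  rw [Finset.sum_comm]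
  refine Finset.sum_congr rfl fun i _ => ?_
  rw [← Equiv.sum_comp (Equiv.addLeft i) (fun j => ‖ψ i‖ ^ 2 * ‖ψ j‖ ^ 2)]
  refine Finset.sum_congr rfl fun a _ => ?_
  simp only [Equiv.coe_addLeft]
  ring

theorem moment_bound {ψ : ZMod d → ℂ} (h : ∑ i, ‖ψ i‖ ^ 2 = 1) {C : ℝ}
    (hB : ∀ a b : ZMod d, (a, b) ≠ (0, 0) → ‖B ψ ψ a b‖ ^ 2 ≤ C) (k : ℕ) :
    ∑ a, ∑ b, ‖B ψ ψ a b‖ ^ (2 * (k + 1)) ≤ 1 + C ^ k * (d - 1) := by
  have h0 : ‖B ψ ψ 0 0‖ = 1 := by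
    rw [B_zero, h]; simp
  have h1 := sum_B_sq ψ
  rw [h, one_pow, mul_one] at h1
  rw [← Finset.sum_product'] at h1 ⊢
  have hmem : ((0 : ZMod d), (0 : ZMod d)) ∈
      (Finset.univ ×ˢ Finset.univ : Finset (ZMod d × ZMod d)) := by simp
  rw [← Finset.add_sum_erase _ _ hmem] at h1 ⊢
  simp only [h0, one_pow] at h1 ⊢
  have h2 : ∑ x ∈ (Finset.univ ×ˢ Finset.univ : Finset (ZMod d × ZMod d)).erase (0, 0),
      ‖B ψ ψ x.1 x.2‖ ^ (2 * (k + 1)) ≤
      C ^ k * ∑ x ∈ (Finset.univ ×ˢ Finset.univ : Finset (ZMod d × ZMod d)).erase (0, 0),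
      ‖B ψ ψ x.1 x.2‖ ^ 2 := by
    rw [Finset.mul_sum]
    refine Finset.sum_le_sum fun x hx => ?_
    have hx' := hB x.1 x.2 (Finset.ne_of_mem_erase hx)
    rw [pow_mul, pow_succ]
    exact mul_le_mul_of_nonneg_right (pow_le_pow_left₀ (by positivity) hx' k) (by positivity)
  have h3 : ∑ x ∈ (Finset.univ ×ˢ Finset.univ : Finset (ZMod d × ZMod d)).erase (0, 0),
      ‖B ψ ψ x.1 x.2‖ ^ 2 = (d : ℝ) - 1 := by linarith
  rw [h3] at h2
  linarith

/-- **Every dimension.** -/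
theorem every (d : ℕ) [NeZero d] : ∃ ψ : ZMod d → ℂ, ∑ i, ‖ψ i‖ ^ 2 = 1 ∧
    ∀ a b : ZMod d, (a, b) ≠ (0, 0) → ‖B ψ ψ a b‖ ^ 2 ≤ 4000 / ((d : ℝ) + 1) := by
  have hd := d_pos (d := d)
  rcases Nat.lt_or_ge d 4000 with hs | hs
  · obtain ⟨ψ, hψ⟩ := unit_exists (d := d)
    refine ⟨ψ, hψ, fun a b _ => ?_⟩
    have h1 := B_le_one hψ a b
    have h2 : (1 : ℝ) ≤ 4000 / ((d : ℝ) + 1) := by
      rw [le_div_iff₀ (by positivity)]
      have : ((d + 1 : ℕ) : ℝ) ≤ 4000 := by exact_mod_cast hs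
      push_cast at this
      linarith
    have h3 : ‖B ψ ψ a b‖ ^ 2 ≤ 1 := pow_le_one₀ (norm_nonneg _) h1
    linarith
  obtain ⟨p, hp, hp1, hp2⟩ := Nat.exists_prime_lt_and_le_two_mul (2 * d) (by omega)
  have : Fact p.Prime := ⟨hp⟩
  have h4 : p ≤ 4 * d := by omega
  have h3 : (3 : ZMod p) ≠ 0 := by
    have : ((3 : ℕ) : ZMod p) ≠ 0 := by
      rw [Ne, ZMod.natCast_eq_zero_iff]
      intro hdvd
      have := Nat.le_of_dvd (by norm_num) hdvd
      omega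
    simpa using this
  have hT := fun (h : ℤ) (b : ZMod d) => T_bound (d := d) (p := p) hp1 h4 h3 h b
  set s : ℝ := Real.sqrt d with hsdef
  have hs2 : s ^ 2 = d := Real.sq_sqrt hd.le
  have hs0 : 0 ≤ s := Real.sqrt_nonneg _
  have hs63 : (63.2 : ℝ) ≤ s := by
    rw [hsdef]
    apply Real.le_sqrt_of_sq_le
    have : (4000 : ℝ) ≤ d := by exact_mod_cast hs
    norm_num
    linarith
  have hsp : Real.sqrt p ≤ 2 * s := by
    rw [Real.sqrt_le_left (by positivity), mul_pow, hs2]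
    have : (p : ℝ) ≤ 4 * d := by exact_mod_cast h4
    linarith
  have hT2 : ∀ (h : ℤ) (b : ZMod d), h ≠ 0 → -2 * (d : ℤ) ≤ h → h < 2 * (d : ℤ) →
      ‖T d p h b‖ ≤ 1004 / 100 * s := by
    intro h b h0 hl hu
    have := hT h b h0 hl hu
    nlinarith
  have hdp : 0 < (d : ℤ) := by exact_mod_cast Nat.pos_of_ne_zero (NeZero.ne d)
  -- the zero column
  have hcol : ∀ b : ZMod d, ‖B (psi d p) (psi d p) 0 b - (if b = 0 then (d : ℂ) else 0)‖ ≤
      2008 / 100 * s := by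
    intro b
    rw [B_psi, ZMod.val_zero]
    push_cast
    rw [zero_add, zero_add, zero_add, T_low (le_of_eq rfl), T_zero]
    have e : (0 : ℂ) + T d p ((-1) * (d : ℤ)) b + (if b = 0 then (d : ℂ) else 0) + T d p d b -
        (if b = 0 then (d : ℂ) else 0) = T d p ((-1) * (d : ℤ)) b + T d p d b := by ring
    rw [e]
    refine (norm_add_le _ _).trans ?_
    have g1 := hT2 ((-1) * (d : ℤ)) b (by omega) (by omega) (by omega)
    have g2 := hT2 d b (by omega) (by omega) (by omega)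
    linarith
  have hall : ∀ a b : ZMod d, (a, b) ≠ (0, 0) → ‖B (psi d p) (psi d p) a b‖ ≤
      4016 / 100 * s := by
    intro a b hab
    rcases eq_or_ne a 0 with ha | ha
    · subst ha
      have hb : b ≠ 0 := fun h => hab (by rw [h])
      have h5 := hcol b
      rw [if_neg hb, sub_zero] at h5
      nlinarith
    · rw [B_psi]
      have hv : 0 < a.val := Nat.pos_of_ne_zero (fun h => ha ((ZMod.val_eq_zero a).1 h))
      have hlt := ZMod.val_lt a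
      have g1 := hT2 (a.val + (-2) * d) b (by omega) (by omega) (by omega)
      have g2 := hT2 (a.val + (-1) * d) b (by omega) (by omega) (by omega)
      have g3 := hT2 a.val b (by omega) (by omega) (by omega)
      have g4 := hT2 (a.val + d) b (by omega) (by omega) (by omega)
      refine (norm_add₃_le.trans (add_le_add (add_le_add (norm_add_le _ _) le_rfl) le_rfl)).trans ?_
      linarith
  have hN : |∑ i, ‖psi d p i‖ ^ 2 - d| ≤ 2008 / 100 * s := by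
    have h5 := hcol 0
    rw [B_zero, if_pos rfl] at h5
    have e : (((∑ i, ‖psi d p i‖ ^ 2 : ℝ) : ℂ) - (d : ℂ)) =
        ((∑ i, ‖psi d p i‖ ^ 2 - d : ℝ) : ℂ) := by push_cast; ring
    rw [e, Complex.norm_real, Real.norm_eq_abs] at h5
    exact h5
  rw [abs_le] at hN
  have hN1 : s * (s - 2008 / 100) ≤ ∑ i, ‖psi d p i‖ ^ 2 := by nlinarith
  have hN0 : 0 < ∑ i, ‖psi d p i‖ ^ 2 := lt_of_lt_of_le (by nlinarith) hN1
  obtain ⟨φ, hφ1, hφ2⟩ := normalise hN0 rfl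
  refine ⟨φ, hφ1, fun a b hab => ?_⟩
  have h5 : ‖B φ φ a b‖ ≤ (4016 / 100) / (s - 2008 / 100) := by
    rw [hφ2, div_le_div_iff₀ hN0 (by linarith)]
    calc _ ≤ (4016 / 100 * s) * (s - 2008 / 100) :=
          mul_le_mul_of_nonneg_right (hall a b hab) (by linarith)
      _ = 4016 / 100 * (s * (s - 2008 / 100)) := by ring
      _ ≤ _ := mul_le_mul_of_nonneg_left hN1 (by norm_num)
  refine (pow_le_pow_left₀ (norm_nonneg _) h5 2).trans ?_
  rw [div_pow, div_le_div_iff₀ (by have : 0 < s - 2008 / 100 := by linarith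
                                   positivity) (by positivity), ← hs2]
  nlinarith

end

end Pool.Agent.H239.WH
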