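import Pool.Agent.H239.WH.Part4
import Mathlib.FieldTheory.Finite.GaloisField

set_option autoImplicit false
set_option linter.unusedSectionVars false

/-!
# Approximate fiducials for `d` prime and `d + 1` a prime power
-/

namespace Pool.Agent.H239.WH

open Finset

section
variable {d : ℕ} [NeZero d]

/-- `δ_0` -/
noncomputable def dl (i : ZMod d) : ℂ := if i = 0 then 1 else 0

/-- the perturbed vector -/
noncomputable def pert (φ : ZMod d → ℂ) (s t r : ℝ) (i : ZMod d) : ℂ :=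
  φ i + (s : ℂ) * dl i + ((t * r : ℝ) : ℂ)

theorem sum_dl (f : ZMod d → ℂ) : ∑ i, dl i * f i = f 0 := by
  unfold dl
  rw [Finset.sum_eq_single (0 : ZMod d)]
  · simp
  · intro i _ hi
    rw [if_neg hi, zero_mul]
  · simp

theorem sum_dl_shift (f : ZMod d → ℂ) (a : ZMod d) : ∑ i, dl (i + a) * f i = f (-a) := by
  rw [← Equiv.sum_comp (Equiv.subRight a) (fun i => dl (i + a) * f i)]
  simp only [Equiv.subRight_apply, sub_add_cancel]
  rw [sum_dl (fun i => f (i - a)), zero_sub]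

theorem conj_dl (i : ZMod d) : (starRingEnd ℂ) (dl i) = dl i := by
  unfold dl
  split_ifs <;> simp

theorem norm_dl_le (i : ZMod d) : ‖(dl i : ℂ)‖ ≤ 1 := by
  unfold dl
  split_ifs <;> simp

theorem B_pert (φ : ZMod d → ℂ) {s t r H : ℝ} (hs : 0 ≤ s) (ht : 0 ≤ t) (hr : 0 ≤ r)
    (hr2 : r ^ 2 * d = 1) (hφ : ∀ i, ‖φ i‖ ≤ r) (hH : ∀ b, ‖∑ i, φ i * ch (b * i)‖ ≤ H)
    (a b : ZMod d) :
    ‖B (pert φ s t r) (pert φ s t r) a b - (B φ φ a b + ((s ^ 2 : ℝ) : ℂ) * dl a +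
      ((t ^ 2 : ℝ) : ℂ) * dl b)‖ ≤ 2 * (s * r) + 2 * (t * r * H) + 2 * (s * t * r) := by
  have e1 : ∑ i : ZMod d, (starRingEnd ℂ) (φ (i + a)) * (dl i * ch (b * i)) =
      (starRingEnd ℂ) (φ a) := by
    have := sum_dl (fun i : ZMod d => (starRingEnd ℂ) (φ (i + a)) * ch (b * i))
    rw [zero_add, mul_zero, ch_zero, mul_one] at this
    rw [← this]
    exact Finset.sum_congr rfl fun i _ => by ring
  have e2 : ∑ i : ZMod d, dl (i + a) * (φ i * ch (b * i)) = φ (-a) * ch (b * -a) :=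
    sum_dl_shift (fun i => φ i * ch (b * i)) a
  have e3 : ∑ i : ZMod d, dl (i + a) * (dl i * ch (b * i)) = dl a := by
    rw [sum_dl_shift (fun i => dl i * ch (b * i)) a]
    unfold dl
    by_cases ha : a = 0
    · simp [ha]
    · rw [if_neg (neg_ne_zero.2 ha), if_neg ha, zero_mul]
  have e4 : ∑ i : ZMod d, dl (i + a) * ch (b * i) = ch (b * -a) := sum_dl_shift (fun i => ch (b * i)) a
  have e5 : ∑ i : ZMod d, dl i * ch (b * i) = 1 := by
    rw [sum_dl (fun i => ch (b * i)), mul_zero, ch_zero]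
  have e6 : ∑ i : ZMod d, ch (b * i) = d * dl b := by
    rw [Finset.sum_congr rfl fun i _ => congrArg ch (mul_comm b i), sum_ch]
    unfold dl
    split_ifs <;> simp
  have e7 : ∑ i : ZMod d, (starRingEnd ℂ) (φ (i + a)) * ch (b * i) =
      ch (b * -a) * (starRingEnd ℂ) (∑ i, φ i * ch (-b * i)) := by
    rw [map_sum, Finset.mul_sum, ← Equiv.sum_comp (Equiv.addRight a)
      (fun i => ch (b * -a) * (starRingEnd ℂ) (φ i * ch (-b * i)))]
    refine Finset.sum_congr rfl fun i _ => ?_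
    simp only [Equiv.coe_addRight]
    rw [map_mul, conj_ch]
    have : ch (b * i) = ch (b * -a) * ch (-(-b * (i + a))) := by
      rw [← ch_add]; congr 1; ring
    rw [this]
    ring
  have e0 : B (pert φ s t r) (pert φ s t r) a b = B φ φ a b +
      (s : ℂ) * ∑ i : ZMod d, (starRingEnd ℂ) (φ (i + a)) * (dl i * ch (b * i)) +
      ((t * r : ℝ) : ℂ) * ∑ i : ZMod d, (starRingEnd ℂ) (φ (i + a)) * ch (b * i) +
      (s : ℂ) * ∑ i : ZMod d, dl (i + a) * (φ i * ch (b * i)) +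
      (s : ℂ) ^ 2 * ∑ i : ZMod d, dl (i + a) * (dl i * ch (b * i)) +
      (s : ℂ) * ((t * r : ℝ) : ℂ) * ∑ i : ZMod d, dl (i + a) * ch (b * i) +
      ((t * r : ℝ) : ℂ) * ∑ i : ZMod d, φ i * ch (b * i) +
      ((t * r : ℝ) : ℂ) * (s : ℂ) * ∑ i : ZMod d, dl i * ch (b * i) +
      ((t * r : ℝ) : ℂ) ^ 2 * ∑ i : ZMod d, ch (b * i) := by
    unfold B pert
    simp only [Finset.mul_sum, ← Finset.sum_add_distrib]
    refine Finset.sum_congr rfl fun i _ => ?_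
    rw [map_add, map_add, map_mul, Complex.conj_ofReal, Complex.conj_ofReal, conj_dl]
    ring
  have hr2' : ((r : ℂ)) ^ 2 * d = 1 := by exact_mod_cast hr2
  have e8 : B (pert φ s t r) (pert φ s t r) a b - (B φ φ a b + ((s ^ 2 : ℝ) : ℂ) * dl a +
      ((t ^ 2 : ℝ) : ℂ) * dl b) =
      (s : ℂ) * (starRingEnd ℂ) (φ a) +
      ((t * r : ℝ) : ℂ) * (ch (b * -a) * (starRingEnd ℂ) (∑ i, φ i * ch (-b * i))) +
      (s : ℂ) * (φ (-a) * ch (b * -a)) +
      ((s * t * r : ℝ) : ℂ) * ch (b * -a) +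
      ((t * r : ℝ) : ℂ) * ∑ i : ZMod d, φ i * ch (b * i) +
      ((s * t * r : ℝ) : ℂ) := by
    rw [e0, e1, e2, e3, e4, e5, e6, e7]
    have : ((t * r : ℝ) : ℂ) ^ 2 * ((d : ℂ) * dl b) = ((t ^ 2 : ℝ) : ℂ) * dl b := by
      push_cast
      calc _ = (t : ℂ) ^ 2 * ((r : ℂ) ^ 2 * d) * dl b := by ring
        _ = _ := by rw [hr2']; ring
    rw [this]
    push_cast
    ring
  rw [e8]
  have n1 : ‖(s : ℂ) * (starRingEnd ℂ) (φ a)‖ ≤ s * r := by
    rw [norm_mul, RCLike.norm_conj, Complex.norm_real, Real.norm_eq_abs, abs_of_nonneg hs]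
    exact mul_le_mul_of_nonneg_left (hφ a) hs
  have n2 : ‖((t * r : ℝ) : ℂ) * (ch (b * -a) * (starRingEnd ℂ) (∑ i, φ i * ch (-b * i)))‖ ≤
      t * r * H := by
    rw [norm_mul, norm_mul, norm_ch, one_mul, RCLike.norm_conj, Complex.norm_real,
      Real.norm_eq_abs, abs_of_nonneg (by positivity)]
    exact mul_le_mul_of_nonneg_left (hH (-b)) (by positivity)
  have n3 : ‖(s : ℂ) * (φ (-a) * ch (b * -a))‖ ≤ s * r := by
    rw [norm_mul, norm_mul, norm_ch, mul_one, Complex.norm_real, Real.norm_eq_abs,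
      abs_of_nonneg hs]
    exact mul_le_mul_of_nonneg_left (hφ _) hs
  have n4 : ‖((s * t * r : ℝ) : ℂ) * ch (b * -a)‖ ≤ s * t * r := by
    rw [norm_mul, norm_ch, mul_one, Complex.norm_real, Real.norm_eq_abs,
      abs_of_nonneg (by positivity)]
  have n5 : ‖((t * r : ℝ) : ℂ) * ∑ i : ZMod d, φ i * ch (b * i)‖ ≤ t * r * H := by
    rw [norm_mul, Complex.norm_real, Real.norm_eq_abs, abs_of_nonneg (by positivity)]
    exact mul_le_mul_of_nonneg_left (hH b) (by positivity)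
  have n6 : ‖((s * t * r : ℝ) : ℂ)‖ ≤ s * t * r := by
    rw [Complex.norm_real, Real.norm_eq_abs, abs_of_nonneg (by positivity)]
  refine (norm_add_le_of_le (norm_add_le_of_le (norm_add_le_of_le (norm_add_le_of_le
    (norm_add_le_of_le n1 n2) n3) n4) n5) n6).trans (le_of_eq ?_)
  ring

/-- small dimensions -/
theorem small_case {δ : ℝ} (hδ0 : 0 < δ) (hδ : δ ^ 4 * ((d : ℝ) + 1) = 1) (hs : 1 / 5 < δ) :
    ∃ φ : ZMod d → ℂ, ∑ i, ‖φ i‖ ^ 2 = 1 ∧ ∀ a b : ZMod d, (a, b) ≠ (0, 0) →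
      |((d : ℝ) + 1) * ‖B φ φ a b‖ ^ 2 - 1| ≤ 4000 * δ := by
  have hd := d_pos (d := d)
  have hd1 : (d : ℝ) + 1 = 1 / δ ^ 4 := by
    rw [eq_div_iff (by positivity), mul_comm]
    exact hδ
  obtain ⟨φ, hφ⟩ := unit_exists (d := d)
  refine ⟨φ, hφ, fun a b _ => ?_⟩
  have h3 := B_le_one hφ a b
  have h4 : ‖B φ φ a b‖ ^ 2 ≤ 1 := pow_le_one₀ (norm_nonneg _) h3
  have h5 : (0 : ℝ) ≤ ‖B φ φ a b‖ ^ 2 := by positivity
  have h6 : (d : ℝ) + 1 ≤ 625 := by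
    rw [hd1, div_le_iff₀ (by positivity)]
    have : (1 / 5 : ℝ) ^ 4 ≤ δ ^ 4 := pow_le_pow_left₀ (by norm_num) hs.le 4
    norm_num at this
    linarith
  rw [abs_le]
  constructor
  · nlinarith
  · nlinarith

/-- assembling -/
theorem assemble (ψ : ZMod d → ℂ) {δ : ℝ} (hδ0 : 0 < δ) (hδ : δ ^ 4 * ((d : ℝ) + 1) = 1)
    (h1 : ∀ a b : ZMod d, (a, b) ≠ (0, 0) → |‖B ψ ψ a b‖ - δ ^ 2| ≤ 12 * δ ^ 3)
    (h2 : |∑ i, ‖ψ i‖ ^ 2 - 1| ≤ 12 * δ ^ 2) :
    ∃ φ : ZMod d → ℂ, ∑ i, ‖φ i‖ ^ 2 = 1 ∧ ∀ a b : ZMod d, (a, b) ≠ (0, 0) →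
      |((d : ℝ) + 1) * ‖B φ φ a b‖ ^ 2 - 1| ≤ 4000 * δ := by
  have hd := d_pos (d := d)
  have hd1 : (d : ℝ) + 1 = 1 / δ ^ 4 := by
    rw [eq_div_iff (by positivity), mul_comm]
    exact hδ
  rcases lt_or_ge (1 / 5 : ℝ) δ with hs | hs
  · exact small_case hδ0 hδ hs
  set N := ∑ i, ‖ψ i‖ ^ 2 with hNdef
  rw [abs_le] at h2
  have hδ2 : δ ^ 2 ≤ 1 / 25 := by nlinarith
  have hN0 : (1 / 2 : ℝ) ≤ N := by linarith
  obtain ⟨φ, hφ1, hφ2⟩ := normalise (ψ := ψ) (N := N) (by linarith) rfl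
  refine ⟨φ, hφ1, fun a b hab => ?_⟩
  have h3 := h1 a b hab
  rw [abs_le] at h3
  set x := ‖B ψ ψ a b‖ / δ ^ 2 with hx
  have hx0 : 0 ≤ x := by positivity
  have hx1 : x - 1 ≤ 12 * δ := by
    rw [hx, sub_le_iff_le_add, div_le_iff₀ (by positivity)]
    nlinarith
  have hx2 : -(12 * δ) ≤ x - 1 := by
    have : 1 - 12 * δ ≤ x := by
      rw [hx, le_div_iff₀ (by positivity)]
      nlinarith
    linarith
  have e : ((d : ℝ) + 1) * ‖B φ φ a b‖ ^ 2 - 1 = (x - N) * ((x + N) / N ^ 2) := by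
    rw [hφ2, hx, hd1]
    have : N ≠ 0 := by positivity
    field_simp
    ring
  rw [e, abs_mul]
  have h5 : |x - N| ≤ 12 * δ + 12 * δ ^ 2 := by
    rw [abs_le]
    constructor <;> linarith
  have h6 : |(x + N) / N ^ 2| ≤ 24 := by
    rw [abs_of_nonneg (by positivity), div_le_iff₀ (by positivity)]
    nlinarith
  calc |x - N| * |(x + N) / N ^ 2| ≤ (12 * δ + 12 * δ ^ 2) * 24 :=
        mul_le_mul h5 h6 (abs_nonneg _) (by positivity)
    _ ≤ 4000 * δ := by nlinarith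

/-- the general criterion -/
theorem criterion (φ : ZMod d → ℂ) {δ t r H : ℝ} (hδ0 : 0 < δ) (hδ : δ ^ 4 * ((d : ℝ) + 1) = 1)
    (hr : 0 ≤ r) (hr2 : r ^ 2 * d = 1) (ht : t = 0 ∨ t = δ) (hφ : ∀ i, ‖φ i‖ = r)
    (hH0 : 0 ≤ H)
    (hH : ∀ b, ‖∑ i, φ i * ch (b * i)‖ ≤ H) (hH2 : t = 0 ∨ H ≤ 3 / 2)
    (h0 : ∀ b : ZMod d, b ≠ 0 → B φ φ 0 b = 0)
    (h1 : ∀ a : ZMod d, a ≠ 0 → |‖B φ φ a 0 + ((t ^ 2 : ℝ) : ℂ)‖ - δ ^ 2| ≤ 2 * δ ^ 3)
    (h2 : ∀ a b : ZMod d, a ≠ 0 → b ≠ 0 → |‖B φ φ a b‖ - δ ^ 2| ≤ 2 * δ ^ 3) :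
    ∃ φ : ZMod d → ℂ, ∑ i, ‖φ i‖ ^ 2 = 1 ∧ ∀ a b : ZMod d, (a, b) ≠ (0, 0) →
      |((d : ℝ) + 1) * ‖B φ φ a b‖ ^ 2 - 1| ≤ 4000 * δ := by
  have hd := d_pos (d := d)
  have hd1' : (1 : ℝ) ≤ d := by exact_mod_cast Nat.pos_of_ne_zero (NeZero.ne d)
  have hδ1 : δ ≤ 1 := by
    by_contra hcon
    rw [not_le] at hcon
    have : 1 < δ ^ 4 := one_lt_pow₀ hcon (by norm_num)
    nlinarith
  have ht0 : 0 ≤ t := by rcases ht with h | h <;> rw [h]; exact hδ0.le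
  have htδ : t ≤ δ := by rcases ht with h | h <;> rw [h]; exact hδ0.le
  have hrδ : r ≤ 142 / 100 * δ ^ 2 := by
    have h3 : r ^ 2 ≤ 2 * (δ ^ 2) ^ 2 := by
      have : r ^ 2 = 1 / d := by rw [eq_div_iff hd.ne']; exact hr2
      have h4 : (δ ^ 2) ^ 2 = 1 / ((d : ℝ) + 1) := by
        rw [eq_div_iff (by positivity), ← pow_mul]; exact hδ
      rw [this, h4, mul_one_div, div_le_div_iff₀ hd (by positivity)]
      linarith
    have h5 : (0 : ℝ) ≤ δ ^ 2 := by positivity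
    by_contra hcon
    rw [not_le] at hcon
    nlinarith
  have hE : 2 * (δ * r) + 2 * (t * r * H) + 2 * (δ * t * r) ≤ 10 * δ ^ 3 := by
    have g1 : t * r * H ≤ 3 / 2 * (δ * r) := by
      rcases hH2 with h | h
      · rw [h, zero_mul, zero_mul]; positivity
      · calc t * r * H ≤ δ * r * (3 / 2) :=
              mul_le_mul (mul_le_mul_of_nonneg_right htδ hr) h hH0 (by positivity)
          _ = _ := by ring
    have g2 : δ * t * r ≤ δ * r := by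
      have : t ≤ 1 := htδ.trans hδ1
      calc δ * t * r = t * (δ * r) := by ring
        _ ≤ 1 * (δ * r) := mul_le_mul_of_nonneg_right this (by positivity)
        _ = _ := one_mul _
    have g3 : δ * r ≤ δ * (142 / 100 * δ ^ 2) := mul_le_mul_of_nonneg_left hrδ hδ0.le
    nlinarith
  have hB := fun a b : ZMod d => (B_pert φ hδ0.le ht0 hr hr2 (fun i => (hφ i).le) hH a b).trans hE
  refine assemble (pert φ δ t r) hδ0 hδ (fun a b hab => ?_) ?_
  · have h3 := hB a b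
    have h4 : |‖B φ φ a b + ((δ ^ 2 : ℝ) : ℂ) * dl a + ((t ^ 2 : ℝ) : ℂ) * dl b‖ - δ ^ 2| ≤
        2 * δ ^ 3 := by
      rcases eq_or_ne a 0 with ha | ha
      · have hb : b ≠ 0 := fun h => hab (by rw [ha, h])
        subst ha
        rw [h0 b hb]
        unfold dl
        rw [if_pos rfl, if_neg hb, mul_zero, add_zero, zero_add, mul_one, Complex.norm_real,
          Real.norm_eq_abs, abs_of_nonneg (by positivity : (0 : ℝ) ≤ δ ^ 2), sub_self, abs_zero]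
        positivity
      · rcases eq_or_ne b 0 with hb | hb
        · subst hb
          unfold dl
          rw [if_neg ha, if_pos rfl, mul_zero, add_zero, mul_one]
          exact h1 a ha
        · unfold dl
          rw [if_neg ha, if_neg hb, mul_zero, add_zero, mul_zero, add_zero]
          exact h2 a b ha hb
    have h5 := abs_norm_sub_norm_le (B (pert φ δ t r) (pert φ δ t r) a b)
      (B φ φ a b + ((δ ^ 2 : ℝ) : ℂ) * dl a + ((t ^ 2 : ℝ) : ℂ) * dl b)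
    have h6 := h5.trans h3
    rw [abs_le] at h4 h6 ⊢
    constructor <;> linarith
  · have h3 := hB 0 0
    have hφ1 : ∑ i, ‖φ i‖ ^ 2 = 1 := by
      rw [Finset.sum_congr rfl fun i _ => by rw [hφ i], Finset.sum_const, Finset.card_univ,
        ZMod.card, nsmul_eq_mul, mul_comm]
      exact hr2
    rw [B_zero, B_zero, hφ1] at h3
    unfold dl at h3
    rw [if_pos rfl, mul_one, mul_one] at h3
    have e : ((∑ i, ‖pert φ δ t r i‖ ^ 2 : ℝ) : ℂ) - (((1 : ℝ) : ℂ) + ((δ ^ 2 : ℝ) : ℂ) +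
        ((t ^ 2 : ℝ) : ℂ)) = ((∑ i, ‖pert φ δ t r i‖ ^ 2 - 1 - δ ^ 2 - t ^ 2 : ℝ) : ℂ) := by
      push_cast; ring
    rw [e, Complex.norm_real, Real.norm_eq_abs, abs_le] at h3
    have g1 : t ^ 2 ≤ δ ^ 2 := pow_le_pow_left₀ ht0 htδ 2
    have g2 : δ ^ 3 ≤ δ ^ 2 := pow_le_pow_of_le_one hδ0.le hδ1 (by norm_num)
    have g3 : 0 ≤ t ^ 2 := by positivity
    rw [abs_le]
    constructor <;> nlinarith

end

end Pool.Agent.H239.WH
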