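import Pool.Agent.H239.WH.Part5

set_option autoImplicit false
set_option linter.unusedSectionVars false

/-!
# Approximate fiducials for `d` prime and `d + 1` a prime power
-/

namespace Pool.Agent.H239.WH

open Finset

/-- the value `(d+1)^{-1/4}` -/
theorem exists_delta (d : ℕ) [NeZero d] : ∃ δ : ℝ, 0 < δ ∧ δ ^ 4 * ((d : ℝ) + 1) = 1 ∧
    4000 * δ ≤ 4000 / (d : ℝ) ^ (1 / 4 : ℝ) := by
  have hd := d_pos (d := d)
  have h1 : (0 : ℝ) < ((d : ℝ) + 1) ^ (1 / 4 : ℝ) := by positivity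
  refine ⟨1 / ((d : ℝ) + 1) ^ (1 / 4 : ℝ), by positivity, ?_, ?_⟩
  · rw [div_pow, one_pow, ← Real.rpow_natCast, ← Real.rpow_mul (by positivity)]
    norm_num
    field_simp
  · rw [mul_one_div]
    apply div_le_div_of_nonneg_left (by norm_num) (by positivity)
    exact Real.rpow_le_rpow (by positivity) (by linarith) (by norm_num)

section
variable {p : ℕ} [Fact p.Prime]

theorem alltop (hp5 : 5 ≤ p) {δ : ℝ} (hδ0 : 0 < δ) (hδ : δ ^ 4 * ((p : ℝ) + 1) = 1) :
    ∃ φ : ZMod p → ℂ, ∑ i, ‖φ i‖ ^ 2 = 1 ∧ ∀ a b : ZMod p, (a, b) ≠ (0, 0) →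
      |((p : ℝ) + 1) * ‖B φ φ a b‖ ^ 2 - 1| ≤ 4000 * δ := by
  have hp0 : (0 : ℝ) < p := d_pos (d := p)
  set r : ℝ := 1 / Real.sqrt p with hr
  have hr0 : 0 < r := by positivity
  have hr2 : r ^ 2 * p = 1 := by
    rw [hr, div_pow, one_pow, Real.sq_sqrt hp0.le]
    field_simp
  have h3 : (3 : ZMod p) ≠ 0 := by
    have : ((3 : ℕ) : ZMod p) ≠ 0 := by
      rw [Ne, ZMod.natCast_eq_zero_iff]
      intro hdvd
      have := Nat.le_of_dvd (by norm_num) hdvd
      omega
    simpa using this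
  set φ : ZMod p → ℂ := fun i => (r : ℂ) * ch (i ^ 3) with hφ
  have hφr : ∀ i, ‖φ i‖ = r := by
    intro i
    simp only [hφ]
    rw [norm_mul, norm_ch, mul_one, Complex.norm_real, Real.norm_eq_abs, abs_of_pos hr0]
  have hδr : δ ^ 2 ≤ r ∧ r - δ ^ 2 ≤ 2 * δ ^ 3 := by
    have hδ1 : δ ≤ 1 := by
      by_contra hcon
      rw [not_le] at hcon
      have : 1 < δ ^ 4 := one_lt_pow₀ hcon (by norm_num)
      nlinarith
    have e : r ^ 2 - δ ^ 4 = r ^ 2 * δ ^ 4 := by
      have h1 : r ^ 2 = 1 / p := by rw [eq_div_iff hp0.ne']; exact hr2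
      have h2 : δ ^ 4 = 1 / ((p : ℝ) + 1) := by rw [eq_div_iff (by positivity)]; exact hδ
      rw [h1, h2]
      field_simp
      ring
    have h1 : δ ^ 2 ≤ r := by
      apply le_of_sq_le_sq _ hr0.le
      have : (0 : ℝ) ≤ r ^ 2 * δ ^ 4 := by positivity
      nlinarith
    refine ⟨h1, ?_⟩
    have h2 : r - δ ^ 2 ≤ r * δ ^ 4 := by
      have h4 : (r - δ ^ 2) * (r + δ ^ 2) = r * δ ^ 4 * r := by linarith
      by_contra hcon
      rw [not_le] at hcon
      have h5 : r * δ ^ 4 * r ≤ r * δ ^ 4 * (r + δ ^ 2) := by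
        apply mul_le_mul_of_nonneg_left _ (by positivity)
        have : 0 ≤ δ ^ 2 := by positivity
        linarith
      have h6 : r * δ ^ 4 * (r + δ ^ 2) < (r - δ ^ 2) * (r + δ ^ 2) :=
        mul_lt_mul_of_pos_right hcon (by positivity)
      linarith
    have h4 : r ≤ 1 := by
      have hp1 : (1 : ℝ) ≤ p := by exact_mod_cast (Fact.out : p.Prime).one_le
      by_contra hcon
      rw [not_le] at hcon
      nlinarith
    have h5 : δ ^ 4 ≤ δ ^ 3 := pow_le_pow_of_le_one hδ0.le hδ1 (by norm_num)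
    have h6 : (0 : ℝ) ≤ δ ^ 3 := by positivity
    have h7 : r * δ ^ 4 ≤ 1 * δ ^ 4 := mul_le_mul_of_nonneg_right h4 (by positivity)
    linarith
  have hB : ∀ a b : ZMod p, B φ φ a b = ((r ^ 2 : ℝ) : ℂ) * (ch (-(a ^ 3)) *
      ∑ i : ZMod p, ch (-(3 * a) * i ^ 2 + (b - 3 * a ^ 2) * i)) := by
    intro a b
    unfold B
    rw [Finset.mul_sum, Finset.mul_sum]
    refine Finset.sum_congr rfl fun i _ => ?_
    simp only [hφ]
    rw [map_mul, Complex.conj_ofReal, conj_ch]
    have e : ch (-(a ^ 3)) * ch (-(3 * a) * i ^ 2 + (b - 3 * a ^ 2) * i) =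
        ch (-((i + a) ^ 3)) * ch (i ^ 3) * ch (b * i) := by
      rw [← ch_add, ← ch_add, ← ch_add]
      congr 1
      ring
    rw [e]
    push_cast
    ring
  have hBa : ∀ a b : ZMod p, a ≠ 0 → ‖B φ φ a b‖ = r := by
    intro a b ha
    have hg := gauss_sq (p := p) (by omega) (neg_ne_zero.2 (mul_ne_zero h3 ha)) (b - 3 * a ^ 2)
    have hg2 : ‖∑ i : ZMod p, ch (-(3 * a) * i ^ 2 + (b - 3 * a ^ 2) * i)‖ = Real.sqrt p := by
      rw [← hg, Real.sqrt_sq (norm_nonneg _)]
    rw [hB, norm_mul, norm_mul, norm_ch, one_mul, Complex.norm_real, hg2, Real.norm_eq_abs,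
      abs_of_pos (by positivity), hr, div_pow, one_pow, sq, mul_comm]
    field_simp
  refine criterion φ (t := 0) (H := p * r) hδ0 hδ hr0.le hr2 (Or.inl rfl) hφr (by positivity)
    (fun b => ?_) (Or.inl rfl) (fun b hb => ?_) (fun a ha => ?_) (fun a b ha _ => ?_)
  · refine (norm_sum_le _ _).trans ?_
    have : ∀ i, ‖φ i * ch (b * i)‖ = r := fun i => by rw [norm_mul, norm_ch, mul_one, hφr]
    simp only [this]
    rw [Finset.sum_const, Finset.card_univ, ZMod.card, nsmul_eq_mul]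
  · rw [hB]
    have : ∀ i : ZMod p, ch (-(3 * 0) * i ^ 2 + (b - 3 * 0 ^ 2) * i) = ch (i * b) := by
      intro i; congr 1; ring
    simp only [this]
    rw [sum_ch, if_neg hb, mul_zero, mul_zero]
  · rw [zero_pow (by norm_num), Complex.ofReal_zero, add_zero, hBa a 0 ha,
      abs_of_nonneg (by linarith)]
    exact hδr.2
  · rw [hBa a b ha, abs_of_nonneg (by linarith)]
    exact hδr.2

end

section
variable {d : ℕ} [NeZero d] {F : Type*} [Field F] [Fintype F]

/-- Gauss sums along a generator -/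
theorem gaussF (hc : Fintype.card F = d + 1) : ∃ φ : ZMod d → ℂ,
    (∀ i, ‖φ i‖ = 1) ∧ (∀ b, b ≠ 0 → B φ φ 0 b = 0) ∧ (∀ a, a ≠ 0 → B φ φ a 0 = -1) ∧
    (∀ a b, a ≠ 0 → b ≠ 0 → ‖B φ φ a b‖ ^ 2 = d + 1) ∧
    (∀ b, ‖∑ i, φ i * ch (b * i)‖ ^ 2 ≤ d + 1) := by
  classical
  have hd : 0 < d := Nat.pos_of_ne_zero (NeZero.ne d)
  obtain ⟨g, hg⟩ := IsCyclic.exists_generator (α := Fˣ)
  have hord : orderOf g = d := by
    rw [orderOf_eq_card_of_forall_mem_zpowers hg, Nat.card_eq_fintype_card, Fintype.card_units, hc]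
    rfl
  set E : ZMod d → F := fun i => ((g ^ i.val : Fˣ) : F) with hE
  have hE0 : E 0 = 1 := by simp [hE]
  have hEadd : ∀ i j, E (i + j) = E i * E j := by
    intro i j
    simp only [hE]
    rw [← Units.val_mul, ← pow_add, ZMod.val_add]
    congr 1
    rw [← pow_mod_orderOf g (i.val + j.val), hord]
  have hEinj : Function.Injective E := by
    intro i j hij
    simp only [hE] at hij
    have h1 : g ^ i.val = g ^ j.val := Units.ext hij
    rw [pow_inj_mod, hord, Nat.mod_eq_of_lt (ZMod.val_lt i), Nat.mod_eq_of_lt (ZMod.val_lt j)] at h1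
    exact ZMod.val_injective d h1
  have hEne : ∀ i, E i ≠ 0 := fun i => Units.ne_zero _
  have himg : (Finset.univ : Finset (ZMod d)).image E = (Finset.univ : Finset F).erase 0 := by
    apply Finset.eq_of_subset_of_card_le
    · intro x hx
      obtain ⟨i, _, rfl⟩ := Finset.mem_image.1 hx
      exact Finset.mem_erase.2 ⟨hEne i, Finset.mem_univ _⟩
    · rw [Finset.card_erase_of_mem (Finset.mem_univ _), Finset.card_univ, hc,
        Finset.card_image_of_injective _ hEinj, Finset.card_univ, ZMod.card]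
      rfl
  have hsumE : ∀ f : F → ℂ, ∑ i, f (E i) = ∑ x : F, f x - f 0 := by
    intro f
    rw [← Finset.add_sum_erase _ _ (Finset.mem_univ (0 : F)), ← himg,
      Finset.sum_image (fun i _ j _ h => hEinj h)]
    ring
  obtain ⟨A, hA⟩ := (AddChar.exists_apply_ne_zero (α := F) (a := (1 : F))).2 one_ne_zero
  have hA1 : A ≠ 1 := fun h => hA (by rw [h]; rfl)
  have hAp := AddChar.IsPrimitive.of_ne_one hA1
  have hAc : ∀ x, (starRingEnd ℂ) (A x) = A (-x) := fun x => (AddChar.map_neg_eq_conj _ x).symm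
  have hAn : ∀ x, ‖A x‖ = 1 := fun x => AddChar.norm_apply _ x
  have G1 : ∀ c : F, ∑ i, A (c * E i) = if c = 0 then (d : ℂ) else -1 := by
    intro c
    split_ifs with h
    · subst h
      simp
    · rw [hsumE (fun x => A (c * x))]
      have h1 := AddChar.sum_mulShift c hAp
      rw [if_neg h] at h1
      have h2 : ∑ x : F, A (c * x) = 0 := by
        rw [Nat.cast_zero] at h1
        rw [← h1]
        exact Finset.sum_congr rfl fun x _ => by rw [mul_comm]
      rw [h2, mul_zero, AddChar.map_zero_eq_one]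
      ring
  have G2 : ∀ (c : F) (b : ZMod d), c ≠ 0 → b ≠ 0 →
      ‖∑ i, A (c * E i) * ch (b * i)‖ ^ 2 = d + 1 := by
    intro c b hc0 hb
    have h1 : ((‖∑ i, A (c * E i) * ch (b * i)‖ ^ 2 : ℝ) : ℂ) = d + 1 := by
      rw [← Complex.normSq_eq_norm_sq, ← Complex.mul_conj, map_sum, Finset.sum_mul_sum]
      have h2 : ∀ y : ZMod d, ∑ x : ZMod d, A (c * E x) * ch (b * x) *
          (starRingEnd ℂ) (A (c * E y) * ch (b * y)) =
          ∑ h : ZMod d, ch (b * h) * A (c * (E h - 1) * E y) := by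
        intro y
        rw [← Equiv.sum_comp (Equiv.addRight y) (fun x => A (c * E x) * ch (b * x) *
          (starRingEnd ℂ) (A (c * E y) * ch (b * y)))]
        refine Finset.sum_congr rfl fun h _ => ?_
        simp only [Equiv.coe_addRight]
        rw [map_mul (starRingEnd ℂ), conj_ch, hAc, hEadd]
        have e1 : A (c * (E h - 1) * E y) = A (c * (E h * E y)) * A (-(c * E y)) := by
          rw [← AddChar.map_add_eq_mul]; congr 1; ring
        have e2 : ch (b * h) = ch (b * (h + y)) * ch (-(b * y)) := by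
          rw [← ch_add]; congr 1; ring
        rw [e1, e2]
        ring
      rw [Finset.sum_comm, Finset.sum_congr rfl fun y _ => h2 y, Finset.sum_comm]
      simp only [← Finset.mul_sum]
      have h3 : ∀ h : ZMod d, ch (b * h) * ∑ y, A (c * (E h - 1) * E y) =
          (if h = 0 then ((d : ℂ) + 1) else 0) - ch (h * b) := by
        intro h
        rw [G1]
        by_cases hh : h = 0
        · subst hh
          rw [hE0, sub_self, mul_zero c, if_pos rfl, if_pos rfl, mul_zero, zero_mul, ch_zero]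
          ring
        · have : c * (E h - 1) ≠ 0 := by
            refine mul_ne_zero hc0 (sub_ne_zero.2 fun h' => hh (hEinj ?_))
            rw [h', hE0]
          rw [if_neg this, if_neg hh, mul_comm h b]
          ring
      rw [Finset.sum_congr rfl fun h _ => h3 h, Finset.sum_sub_distrib, sum_ch, if_neg hb]
      simp
    exact_mod_cast h1
  refine ⟨fun i => A (E i), fun i => hAn _, fun b hb => ?_, fun a ha => ?_, fun a b ha hb => ?_,
    fun b => ?_⟩
  · unfold B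
    have : ∀ i : ZMod d, (starRingEnd ℂ) (A (E (i + 0))) * A (E i) * ch (b * i) = ch (i * b) := by
      intro i
      rw [hAc, add_zero, ← AddChar.map_add_eq_mul, neg_add_cancel, AddChar.map_zero_eq_one, one_mul,
        mul_comm]
    simp only [this]
    rw [sum_ch, if_neg hb]
  · unfold B
    have : ∀ i : ZMod d, (starRingEnd ℂ) (A (E (i + a))) * A (E i) * ch (0 * i) =
        A ((1 - E a) * E i) := by
      intro i
      rw [hAc, ← AddChar.map_add_eq_mul, zero_mul, ch_zero, mul_one, hEadd]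
      congr 1
      ring
    simp only [this]
    rw [G1, if_neg]
    exact sub_ne_zero.2 fun h' => ha (hEinj (by rw [← h', hE0]))
  · have : B (fun i => A (E i)) (fun i => A (E i)) a b = ∑ i, A ((1 - E a) * E i) * ch (b * i) := by
      unfold B
      refine Finset.sum_congr rfl fun i _ => ?_
      rw [hAc, ← AddChar.map_add_eq_mul, hEadd]
      congr 2
      ring
    rw [this]
    exact G2 _ b (sub_ne_zero.2 fun h' => ha (hEinj (by rw [← h', hE0]))) hb
  · rcases eq_or_ne b 0 with hb | hb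
    · subst hb
      have h1 := G1 1
      rw [if_neg one_ne_zero] at h1
      have : ∑ i : ZMod d, A (E i) * ch (0 * i) = -1 := by
        rw [← h1]
        refine Finset.sum_congr rfl fun i _ => ?_
        rw [zero_mul, ch_zero, mul_one, one_mul]
      rw [this]
      simp
    · have h1 := G2 1 b one_ne_zero hb
      simp only [one_mul] at h1
      exact h1.le

theorem multi (hc : Fintype.card F = d + 1) {δ : ℝ} (hδ0 : 0 < δ)
    (hδ : δ ^ 4 * ((d : ℝ) + 1) = 1) :
    ∃ φ : ZMod d → ℂ, ∑ i, ‖φ i‖ ^ 2 = 1 ∧ ∀ a b : ZMod d, (a, b) ≠ (0, 0) →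
      |((d : ℝ) + 1) * ‖B φ φ a b‖ ^ 2 - 1| ≤ 4000 * δ := by
  obtain ⟨φ, h1, h2, h3, h4, h5⟩ := gaussF (d := d) (F := F) hc
  have hd0 : (0 : ℝ) < d := d_pos (d := d)
  have hd1 : (1 : ℝ) ≤ d := by exact_mod_cast Nat.pos_of_ne_zero (NeZero.ne d)
  set r : ℝ := 1 / Real.sqrt d with hr
  have hr0 : 0 < r := by positivity
  have hr2 : r ^ 2 * d = 1 := by
    rw [hr, div_pow, one_pow, Real.sq_sqrt hd0.le]
    field_simp
  have hr2' : r ^ 2 = 1 / d := by rw [eq_div_iff hd0.ne']; exact hr2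
  have hδ4 : δ ^ 4 = 1 / ((d : ℝ) + 1) := by rw [eq_div_iff (by positivity)]; exact hδ
  have hδ1 : δ ≤ 1 := by
    by_contra hcon
    rw [not_le] at hcon
    have : 1 < δ ^ 4 := one_lt_pow₀ hcon (by norm_num)
    nlinarith
  have hrδ : r ^ 2 ≤ 2 * δ ^ 4 := by
    rw [hr2', hδ4, mul_one_div, div_le_div_iff₀ hd0 (by positivity)]
    linarith
  have hδ43 : δ ^ 4 ≤ δ ^ 3 := pow_le_pow_of_le_one hδ0.le hδ1 (by norm_num)
  refine criterion (fun i => (r : ℂ) * φ i) (t := δ) (H := 3 / 2) hδ0 hδ hr0.le hr2 (Or.inr rfl)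
    (fun i => ?_) (by norm_num) (fun b => ?_) (Or.inr le_rfl) (fun b hb => ?_) (fun a ha => ?_)
    (fun a b ha hb => ?_)
  · rw [norm_mul, h1, mul_one, Complex.norm_real, Real.norm_eq_abs, abs_of_pos hr0]
  · have e : ∑ i, (r : ℂ) * φ i * ch (b * i) = (r : ℂ) * ∑ i, φ i * ch (b * i) := by
      rw [Finset.mul_sum]
      exact Finset.sum_congr rfl fun i _ => by ring
    rw [e, norm_mul, Complex.norm_real, Real.norm_eq_abs, abs_of_pos hr0]
    apply le_of_sq_le_sq _ (by norm_num)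
    rw [mul_pow]
    have := h5 b
    calc r ^ 2 * ‖∑ i, φ i * ch (b * i)‖ ^ 2 ≤ r ^ 2 * (d + 1) :=
          mul_le_mul_of_nonneg_left this (by positivity)
      _ = 1 + r ^ 2 := by linarith
      _ ≤ 1 + 1 := by
        have : r ^ 2 ≤ 1 := by
          rw [hr2', div_le_one hd0]; exact hd1
        linarith
      _ ≤ _ := by norm_num
  · rw [B_smul, h2 b hb, mul_zero]
  · rw [B_smul, h3 a ha]
    have e : ((r ^ 2 : ℝ) : ℂ) * -1 + ((δ ^ 2 : ℝ) : ℂ) = ((δ ^ 2 - r ^ 2 : ℝ) : ℂ) := by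
      push_cast; ring
    rw [e, Complex.norm_real, Real.norm_eq_abs]
    have g1 := abs_abs_sub_abs_le (δ ^ 2 - r ^ 2) (δ ^ 2)
    rw [abs_of_pos (by positivity : (0 : ℝ) < δ ^ 2)] at g1
    have e2 : δ ^ 2 - r ^ 2 - δ ^ 2 = -(r ^ 2) := by ring
    rw [e2, abs_neg, abs_of_pos (by positivity : (0 : ℝ) < r ^ 2)] at g1
    linarith
  · have hn : ‖B φ φ a b‖ = 1 / δ ^ 2 := by
      have h6 := h4 a b ha hb
      have h7 : ‖B φ φ a b‖ = Real.sqrt ((d : ℝ) + 1) := by
        rw [← h6, Real.sqrt_sq (norm_nonneg _)]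
      rw [h7]
      have h8 : (d : ℝ) + 1 = (1 / δ ^ 2) ^ 2 := by
        rw [div_pow, one_pow, ← pow_mul, eq_div_iff (by positivity), mul_comm]
        exact hδ
      rw [h8, Real.sqrt_sq (by positivity)]
    rw [B_smul, norm_mul, hn, Complex.norm_real, Real.norm_eq_abs,
      abs_of_pos (by positivity : (0 : ℝ) < r ^ 2)]
    have e : r ^ 2 * (1 / δ ^ 2) - δ ^ 2 = r ^ 2 * δ ^ 2 := by
      have e1 : r ^ 2 - δ ^ 4 = r ^ 2 * δ ^ 4 := by
        rw [hr2', hδ4]
        field_simp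
        ring
      field_simp
      nlinarith
    rw [e, abs_of_nonneg (by positivity)]
    calc r ^ 2 * δ ^ 2 ≤ 2 * δ ^ 4 * 1 :=
          mul_le_mul hrδ (pow_le_one₀ hδ0.le hδ1) (by positivity) (by positivity)
      _ ≤ 2 * δ ^ 3 := by linarith

end

/-- **Approximate fiducials.** -/
theorem approx (d : ℕ) [NeZero d] (hd : d.Prime ∨ IsPrimePow (d + 1)) :
    ∃ φ : ZMod d → ℂ, ∑ i, ‖φ i‖ ^ 2 = 1 ∧ ∀ a b : ZMod d, (a, b) ≠ (0, 0) →
      |((d : ℝ) + 1) * ‖B φ φ a b‖ ^ 2 - 1| ≤ 4000 / (d : ℝ) ^ (1 / 4 : ℝ) := by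
  obtain ⟨δ, hδ0, hδ, hδ2⟩ := exists_delta d
  suffices h : ∃ φ : ZMod d → ℂ, ∑ i, ‖φ i‖ ^ 2 = 1 ∧ ∀ a b : ZMod d, (a, b) ≠ (0, 0) →
      |((d : ℝ) + 1) * ‖B φ φ a b‖ ^ 2 - 1| ≤ 4000 * δ by
    obtain ⟨φ, h1, h2⟩ := h
    exact ⟨φ, h1, fun a b hab => (h2 a b hab).trans hδ2⟩
  rcases hd with hd | hd
  · have : Fact d.Prime := ⟨hd⟩
    rcases Nat.lt_or_ge d 5 with h5 | h5
    · refine small_case hδ0 hδ ?_
      by_contra hcon
      rw [not_lt] at hcon
      have h6 : δ ^ 4 ≤ (1 / 5) ^ 4 := pow_le_pow_left₀ hδ0.le hcon 4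
      have h7 : (d : ℝ) ≤ 4 := by exact_mod_cast (by omega : d ≤ 4)
      norm_num at h6
      nlinarith
    · exact alltop h5 hδ0 hδ
  · obtain ⟨p, k, hp, hk, h⟩ := (isPrimePow_nat_iff _).1 hd
    have : Fact p.Prime := ⟨hp⟩
    have : Fintype (GaloisField p k) := Fintype.ofFinite _
    have hc : Fintype.card (GaloisField p k) = d + 1 := by
      rw [← h, ← Nat.card_eq_fintype_card, GaloisField.card p k hk.ne']
    exact multi hc hδ0 hδ

end Pool.Agent.H239.WH
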