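import Pool.Agent.H239.WH.Part6
import Pool.Agent.H239.WH.Defs

set_option autoImplicit false
set_option linter.unusedSectionVars false

/-!
# Conversion
-/

namespace Pool.Agent.H239.WH

open Finset

section
variable {d : ℕ} [NeZero d]

theorem omega_pow (j : ZMod d) : omega d ^ j.val = ch j := by
  have h1 : ch j = ee (((j.val : ℤ) : ℝ) / d) := by
    rw [← ch_int (N := d) (j.val : ℤ)]
    congr 1
    simp
  rw [h1]
  unfold omega ee
  rw [← Complex.exp_nat_mul]
  congr 1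
  push_cast
  ring

theorem clock_iter (n : ℕ) (ψ : ZMod d → ℂ) (j : ZMod d) :
    clock^[n] ψ j = ch ((n : ZMod d) * j) * ψ j := by
  induction n generalizing ψ with
  | zero => simp
  | succ n ih =>
    rw [Function.iterate_succ_apply, ih]
    unfold clock
    rw [omega_pow, ← mul_assoc, ← ch_add]
    congr 2
    push_cast
    ring

theorem shift_iter (n : ℕ) (ψ : ZMod d → ℂ) (j : ZMod d) :
    shift^[n] ψ j = ψ (j - (n : ZMod d)) := by
  induction n generalizing ψ with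
  | zero => simp
  | succ n ih =>
    rw [Function.iterate_succ_apply, ih]
    unfold shift
    congr 1
    push_cast
    ring

theorem disp_apply (a b : ZMod d) (ψ : ZMod d → ℂ) (j : ZMod d) :
    disp a b ψ j = ch (b * (j - a)) * ψ (j - a) := by
  unfold disp
  rw [shift_iter, clock_iter, ZMod.natCast_zmod_val, ZMod.natCast_zmod_val]

theorem braket_disp (a b : ZMod d) (ψ : ZMod d → ℂ) : braket ψ (disp a b ψ) = B ψ ψ a b := by
  unfold braket B
  rw [← Equiv.sum_comp (Equiv.addRight a)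
    (fun j => (starRingEnd ℂ) (ψ j) * disp a b ψ j)]
  refine Finset.sum_congr rfl fun i _ => ?_
  simp only [Equiv.coe_addRight]
  rw [disp_apply, add_sub_cancel_right]
  ring

theorem braket_self (ψ : ZMod d → ℂ) : braket ψ ψ = ((∑ i, ‖ψ i‖ ^ 2 : ℝ) : ℂ) := by
  rw [← B_zero]
  unfold braket B
  refine Finset.sum_congr rfl fun i _ => ?_
  rw [add_zero, zero_mul, ch_zero, mul_one]

theorem sum_pos_aux (f : ZMod d → ZMod d → ℝ) (hf : ∀ a b, 0 ≤ f a b) (h0 : 0 < f 0 0) :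
    0 < ∑ a, ∑ b, f a b :=
  Finset.sum_pos' (fun a _ => Finset.sum_nonneg fun b _ => hf a b) ⟨0, Finset.mem_univ _,
    Finset.sum_pos' (fun b _ => hf 0 b) ⟨0, Finset.mem_univ _, h0⟩⟩

theorem entropy_bound {ψ : ZMod d → ℂ} (h : ∑ i, ‖ψ i‖ ^ 2 = 1) {K : ℝ} (hK : 1 ≤ K)
    (hB : ∀ a b : ZMod d, (a, b) ≠ (0, 0) → ‖B ψ ψ a b‖ ^ 2 ≤ K / ((d : ℝ) + 1)) (α : ℕ)
    (hα : 2 ≤ α) : maxEntropy d α - Real.log K ≤ stabEntropy α ψ := by
  have hd := d_pos (d := d)
  have hd1 : (1 : ℝ) ≤ d := by exact_mod_cast Nat.pos_of_ne_zero (NeZero.ne d)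
  obtain ⟨k, rfl⟩ : ∃ k, α = k + 1 := ⟨α - 1, by omega⟩
  have hk : 1 ≤ k := by omega
  have hk0 : (0 : ℝ) < k := by exact_mod_cast hk
  have h1 := moment_bound h hB k
  unfold stabEntropy maxEntropy
  simp only [braket_disp, Nat.add_sub_cancel]
  rw [show (1 : ℝ) - ((k + 1 : ℕ) : ℝ) = -(k : ℝ) by push_cast; ring]
  set S : ℝ := ∑ a, ∑ b, 1 / (d : ℝ) * ‖B ψ ψ a b‖ ^ (2 * (k + 1)) with hS
  have hS1 : S = (∑ a, ∑ b, ‖B ψ ψ a b‖ ^ (2 * (k + 1))) / d := by
    rw [hS]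
    simp only [← Finset.mul_sum]
    ring
  have hS0 : 0 < S := by
    have h2 : ‖B ψ ψ 0 0‖ = 1 := by rw [B_zero, h]; simp
    rw [hS]
    refine sum_pos_aux (fun a b => 1 / (d : ℝ) * ‖B ψ ψ a b‖ ^ (2 * (k + 1)))
      (fun a b => mul_nonneg (by positivity) (pow_nonneg (norm_nonneg _) _)) ?_
    simp only [h2, one_pow, mul_one]
    positivity
  set R : ℝ := (1 + ((d : ℝ) - 1) / ((d : ℝ) + 1) ^ k) / d with hR
  have hdm : (0 : ℝ) ≤ ((d : ℝ) - 1) / ((d : ℝ) + 1) ^ k :=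
    div_nonneg (by linarith) (by positivity)
  have hR0 : 0 < R := by positivity
  have hSR : S ≤ K ^ k * R := by
    rw [hS1, hR, mul_div_assoc', div_le_div_iff_of_pos_right hd]
    refine h1.trans ?_
    rw [div_pow]
    have h2 : (1 : ℝ) ≤ K ^ k := one_le_pow₀ hK
    have h3 : K ^ k / ((d : ℝ) + 1) ^ k * ((d : ℝ) - 1) =
        K ^ k * (((d : ℝ) - 1) / ((d : ℝ) + 1) ^ k) := by ring
    rw [h3, mul_add, mul_one]
    linarith
  have hlog : Real.log S ≤ k * Real.log K + Real.log R := by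
    refine (Real.log_le_log hS0 hSR).trans (le_of_eq ?_)
    rw [Real.log_mul (by positivity) hR0.ne', Real.log_pow]
  have e : 1 / -(k : ℝ) * Real.log R - Real.log K = 1 / -(k : ℝ) * (k * Real.log K + Real.log R) := by
    field_simp
    ring
  rw [e]
  apply mul_le_mul_of_nonpos_left hlog
  apply div_nonpos_of_nonneg_of_nonpos zero_le_one
  linarith

end

end Pool.Agent.H239.WH
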